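import Pool.Agent.Lib.SmJ.L.Kum
import Pool.Agent.Lib.GBU.Plc

/-!
# SMITH-L (odd prime `l`): the interface between block E and block V

`M` is an abelian group with an action `ρ` of `Gal(Ω/K)` (in the application `M = E(Ω)`, `E` an
elliptic curve over `K`). `TOk k l ρ`: the properties of the `l`-power torsion of `M` which block V
needs.
-/

set_option autoImplicit false

namespace Pool.Agent.SmL.V

open Pool.Agent.SmJ.L (GMod)
open Pool.Agent.BSDFF Pool.Agent.Lib.SmD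

section

variable {k K Ω : Type} [Field k] [Field K] [Field Ω] [Algebra k K] [Algebra K Ω]
variable {M : Type} [AddCommGroup M]

/-- The action of the Galois group on the units of `Ω`, additively written. -/
def actU (s : Ω ≃ₐ[K] Ω) : Additive Ωˣ →+ Additive Ωˣ :=
  MonoidHom.toAdditive (Units.map (s : Ω →* Ω))

/-- A compatible family of equivariant alternating pairings on the groups `M[l ^ n]`, nondegenerate on
`M[l]`. -/
structure FormOk (l : ℕ) (ρ : (Ω ≃ₐ[K] Ω) → M →+ M) (en : ℕ → M → M → Additive Ωˣ) : Prop where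
  add_left : ∀ (n : ℕ) (x x' y : M), l ^ n • x = 0 → l ^ n • x' = 0 → l ^ n • y = 0 →
    en n (x + x') y = en n x y + en n x' y
  add_right : ∀ (n : ℕ) (x y y' : M), l ^ n • x = 0 → l ^ n • y = 0 → l ^ n • y' = 0 →
    en n x (y + y') = en n x y + en n x y'
  comp : ∀ (n : ℕ) (x y : M), l ^ n • x = 0 → l ^ (n + 1) • y = 0 →
    en (n + 1) x y = en n x (l • y)
  equiv : ∀ (n : ℕ) (s : Ω ≃ₐ[K] Ω) (x y : M), l ^ n • x = 0 → l ^ n • y = 0 →
    en n (ρ s x) (ρ s y) = actU s (en n x y)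
  alt : ∀ x : M, l • x = 0 → en 1 x x = 0
  nondeg : ∀ x : M, l • x = 0 → (∀ y : M, l • y = 0 → en 1 x y = 0) → x = 0

variable (k) in
/-- What block V needs. `U` is an arbitrary open subgroup, that is, `dec K w ⊓ U` is the decomposition
group over a finite extension of `K`. -/
structure TOk (l : ℕ) (ρ : (Ω ≃ₐ[K] Ω) → M →+ M) : Prop where
  gmod : GMod ρ
  div : ∀ P : M, ∃ Q, l • Q = P
  fin : ∀ n : ℕ, Finite {P : M // l ^ n • P = 0}
  /-- the Weil pairing -/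
  form : ∃ en : ℕ → M → M → Additive Ωˣ, FormOk l ρ en
  /-- the inertia groups at almost all places act trivially on the `l`-power torsion -/
  triv : ∃ T : Set (Place k K), T.Finite ∧ ∀ v ∉ T, ∀ w : ValuationSubring Ω, w ≠ ⊤ →
    below K w = v.ring → ∀ s ∈ iner K w, ∀ P : M, (∃ n : ℕ, l ^ n • P = 0) → ρ s P = P
  /-- the `l`-power torsion over the local fields is finite -/
  fix : ∀ w : ValuationSubring Ω, w ≠ ⊤ → (∀ x : k, algebraMap K Ω (algebraMap k K x) ∈ w) →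
    ∀ U : Subgroup (Ω ≃ₐ[K] Ω), IsOpen (U : Set (Ω ≃ₐ[K] Ω)) →
    {P : M | (∃ n : ℕ, l ^ n • P = 0) ∧ ∀ s ∈ dec K w, s ∈ U → ρ s P = P}.Finite
  /-- over the local fields, `M ⊗ Q_l / Z_l = 0` -/
  e6 : ∀ w : ValuationSubring Ω, w ≠ ⊤ → (∀ x : k, algebraMap K Ω (algebraMap k K x) ∈ w) →
    ∀ U : Subgroup (Ω ≃ₐ[K] Ω), IsOpen (U : Set (Ω ≃ₐ[K] Ω)) → ∀ (j : ℕ) (Q : M),
    (∀ s ∈ dec K w, s ∈ U → l ^ j • (ρ s Q - Q) = 0) →
    ∃ Q' : M, (∃ i : ℕ, l ^ i • Q' = 0) ∧ ∀ s ∈ dec K w, s ∈ U → ρ s Q - Q = ρ s Q' - Q'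

end

end Pool.Agent.SmL.V
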