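import Pool.Agent.Lib.SmL.V.Tor
import Pool.Agent.Lib.SmL.Ar.Fields

/-!
# SMITH-L (odd prime `l`), block V: the instance of `Sys` for cyclic base change

`A` is a `G`-module (`A = E(Ω)` or any `l`-divisible module), `V = VM l (lPow l A)`. `sysV B T hf ht` is
the structure, `B` the groups of block AR, `T` the finite set of the bad places. `okV`: it satisfies
`Sys.Ok`.
-/

set_option autoImplicit false

open Finset

namespace Pool.Agent.SmL.V

variable {l : ℕ} {G A U Pl : Type*} [Group G] [AddCommGroup A] [DistribMulAction G A]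
  [AddCommGroup U] [DistribMulAction G U] {en : ℕ → A → A → U} {th : ZMod l →+ U}

/-- The dual pair `A[l]`, `A[l]`. -/
noncomputable def dpA (hf : Form l G en) (ht : ThOk l G th) : Ar.DP l G (L1 l A) (L1 l A) :=
  ⟨ac1 l G A, ac1 l G A, e1 hf ht⟩

/-- The instance of `Sys`. -/
noncomputable def sysV (B : Ar.Bs G Pl) (T : Finset Pl) (hf : Form l G en) (ht : ThOk l G th) :
    Sys l (AA l) G (VM l (lPow l A)) (L1 l A) Pl where
  ze := zeta l
  se := -1
  NN := B.NN
  D := B.D
  phi := B.ph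
  sg := B.sg
  iota := iotaV (incP l A)
  ac := ac1 l G A
  e := e1 hf ht
  sy := fun v => (dpA hf ht).sy B v
  inv := fun v => B.inv v
  good := {v | v ∉ T}

/-- The properties of the modules `A` and `U` relative to the groups `B`. -/
structure ModOk (l : ℕ) {G Pl : Type*} (A U : Type*) [Group G] [AddCommGroup A]
    [DistribMulAction G A] [AddCommGroup U] [DistribMulAction G U] (B : Ar.Bs G Pl)
    (T : Finset Pl) : Prop where
  div : ∀ P : A, ∃ Q, l • Q = P
  fin1 : Finite (L1 l A)
  act_fin : ∀ n : ℕ, ∃ N ∈ B.NN, ∀ s ∈ N, ∀ P : A, l ^ n • P = 0 → s • P = P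
  good_triv : ∀ v ∉ T, ∀ P : A, (∃ n : ℕ, l ^ n • P = 0) → B.sg v • P = P
  fin_inv : ∀ chi : G → ZMod l, B.TF chi → (∀ s t, chi (s * t) = chi s + chi t) → ∀ v,
    {P : A | (∃ n : ℕ, l ^ n • P = 0) ∧ ∀ s ∈ B.D v, chi s = 0 → s • P = P}.Finite
  sg_U : ∀ v, ∀ u : U, (∃ n : ℕ, l ^ n • u = 0) → B.sg v • u = u
  ph_U : ∀ v, ∀ u : U, (∃ n : ℕ, l ^ n • u = 0) → B.ph v • u = B.q v • u

section

variable {B : Ar.Bs G Pl} {T : Finset Pl} {hf : Form l G en} {ht : ThOk l G th}

theorem mokV (hM : ModOk l A U B T) : MOk (sysV B T hf ht) (incP l A) :=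
  mok_of (sysV B T hf ht) rfl rfl rfl hM.div hM.act_fin hM.good_triv
    fun chi hchi v => hM.fin_inv chi hchi.1 hchi.2 v

theorem lnkV (hB : B.Ok l) (hM : ModOk l A U B T) (hG : (dpA hf ht).Gd B) :
    Ar.Lnk (sysV B T hf ht) B.q where
  ok := hB
  inv _ _ := rfl
  sy _ := rfl
  se_eq := Or.inr rfl
  e_symm w w' := e1_symm hf ht w w'
  dok := hG.ok
  good v hv := by
    refine LinearEquiv.ext fun x => ?_
    apply inc1_inj
    change inc1 l A (ac1 l G A (B.sg v) x) = inc1 l A x
    rw [inc1_ac]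
    exact hM.good_triv v hv _ ⟨1, by rw [pow_one]; exact inc1_l x⟩

theorem locMuV (hB : B.Ok l) (hM : ModOk l A U B T) (hG : (dpA hf ht).Gd B) :
    LocMu (sysV B T hf ht) (lPow l U) B.q where
  pos := hB.q_pos
  inf_mem := hB.inf_mem
  normal := hB.normal
  phi_mem := hB.ph_mem
  sg_mem := hB.sg_mem
  rel := hB.rel
  inv_eq _ _ := rfl
  inv_sy := Ar.f_inv_sy (lnkV hB hM hG)
  sg v m := Subtype.ext (hM.sg_U v _ m.2)
  phi v m := Subtype.ext (hM.ph_U v _ m.2)

/-- **The instance satisfies `Sys.Ok`.** -/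
theorem okV (hB : B.Ok l) (hM : ModOk l A U B T) (hR : B.Rec2 l) (hG : (dpA hf ht).Gd B)
    (hC : Ar.CorrT B (ac1 l G A) T) : (sysV B T hf ht).Ok := by
  have hl : Fact l.Prime := ⟨hB.prime⟩
  have hl0 : NeZero l := ⟨hB.prime.ne_zero⟩
  have h := mokV (hf := hf) (ht := ht) hM
  have hL := lnkV (hf := hf) (ht := ht) hB hM hG
  have hw : WeilM (sysV B T hf ht) (incP l A) (enP l en) (thP th) := weil_of hf ht _ rfl
  exact
    { prime := hB.prime
      odd := hB.odd
      ze_pow := h.ze_pow
      smul_comm := g_comm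
      top_mem := hB.top_mem
      inf_mem := hB.inf_mem
      normal := hB.normal
      phi_mem := hB.ph_mem
      sg_mem := hB.sg_mem
      gen := hB.gen
      frob := fun v N hN => ⟨B.q v, hB.q_one v, hB.rel v N hN⟩
      fin1 := hM.fin1
      se_eq := Or.inr rfl
      e_symm := fun w w' => e1_symm hf ht w w'
      e_nondeg := fun w hw => e1_nondeg hf ht w hw
      e_inv := fun s w w' => e1_inv hf ht s w w'
      iota_inj := h.iota_inj
      lam_iota := h.lam_iota'
      iota_range := h.iota_range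
      iota_ac := h.iota_ac
      half := h.half
      tors := h.torsV
      act_fin := h.act_finV
      unr := hB.unr
      good_fin := by
        refine (Finset.finite_toSet T).subset fun v hv => ?_
        by_contra h1
        exact hv h1
      good_triv := h.good_trivV
      hasse := Ar.f_hasse hL hG
      sy_comm := Ar.f_sy_comm hL
      sy_cob := Ar.f_sy_cob hL
      sy_unr := Ar.f_sy_unr hL
      sy_split := Ar.f_sy_split hL
      inv_congr := Ar.f_inv_congr hL
      inv_add := Ar.f_inv_add hL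
      inv_cob := Ar.f_inv_cob hL
      inv_sy := Ar.f_inv_sy hL
      inv_unr := Ar.f_inv_unr hL
      recip2 := Ar.f_recip2 hL hR
      recip := Ar.f_recip hL hR
      corr := fun w hw hv => by
        obtain ⟨c, hc, h1⟩ := hC w hw hv
        exact ⟨c, hc, h1⟩
      dual := Ar.f_dual hL hR hG
      fin_inv := h.fin_invV
      isot := isot_of_weil h hw (locMuV hB hM hG) (thP_inj ht) }

end

end Pool.Agent.SmL.V
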