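import Pool.Agent.Lib.SmL.V.Alg

/-!
# SMITH-L (odd prime `l`), the module `V` for cyclic base change of degree `l`

`M` is a `G`-module (in the application the `l`-power torsion of `E(Ω)`). `VM l M` is the group of all
functions `ZMod l → M` modulo the constant functions, with the action of `G` on the values and the
action of the group ring `Z[C_l] = Z[ZMod l]`, `ze` = the shift `φ ↦ φ(· + 1)`; it is killed by
`1 + ze + ... + ze ^ (l - 1)`, and `V[lam]` is the image of `iota w = (j ↦ j w)`, `w` in `M[l]`.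
-/

set_option autoImplicit false

open Finset

namespace Pool.Agent.SmL.V

/-- The constant functions. -/
def Cst (l : ℕ) (M : Type*) [AddCommGroup M] : AddSubgroup (ZMod l → M) where
  carrier := {φ | ∃ w, ∀ j, φ j = w}
  zero_mem' := ⟨0, fun _ => rfl⟩
  add_mem' := by
    rintro φ ψ ⟨w, h⟩ ⟨w', h'⟩
    exact ⟨w + w', fun j => by rw [Pi.add_apply, h, h']⟩
  neg_mem' := by
    rintro φ ⟨w, h⟩
    exact ⟨-w, fun j => by rw [Pi.neg_apply, h]⟩

/-- The functions modulo the constant functions. -/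
def VM (l : ℕ) (M : Type*) [AddCommGroup M] : Type _ := (ZMod l → M) ⧸ Cst l M

noncomputable instance (l : ℕ) (M : Type*) [AddCommGroup M] : AddCommGroup (VM l M) :=
  inferInstanceAs (AddCommGroup ((ZMod l → M) ⧸ Cst l M))

/-- The group ring of `ZMod l`. -/
abbrev AA (l : ℕ) : Type := AddMonoidAlgebra ℤ (ZMod l)

section

variable {l : ℕ} {M : Type*} [AddCommGroup M]

/-- The class of a function. -/
noncomputable def mk : (ZMod l → M) →+ VM l M := QuotientAddGroup.mk' (Cst l M)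

theorem mk_surj (Q : VM l M) : ∃ φ, mk φ = Q := QuotientAddGroup.mk_surjective Q

theorem mk_eq_zero {φ : ZMod l → M} : mk φ = 0 ↔ ∃ w, ∀ j, φ j = w :=
  QuotientAddGroup.eq_zero_iff φ

theorem mk_eq {φ ψ : ZMod l → M} : mk φ = mk ψ ↔ ∃ w, ∀ j, φ j = ψ j + w := by
  rw [← sub_eq_zero, ← map_sub, mk_eq_zero]
  constructor
  · rintro ⟨w, h⟩
    exact ⟨w, fun j => by rw [← h j, Pi.sub_apply, add_sub_cancel]⟩
  · rintro ⟨w, h⟩
    exact ⟨w, fun j => by rw [Pi.sub_apply, h, add_sub_cancel_left]⟩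

theorem mk_const (w : M) : mk (fun _ : ZMod l => w) = 0 := mk_eq_zero.2 ⟨w, fun _ => rfl⟩

/-- A lift which vanishes at `0`. -/
theorem mk_lift (Q : VM l M) : ∃ φ, mk φ = Q ∧ φ 0 = 0 := by
  obtain ⟨φ, rfl⟩ := mk_surj Q
  refine ⟨fun j => φ j - φ 0, mk_eq.2 ⟨-φ 0, fun j => sub_eq_add_neg _ _⟩, sub_self _⟩

/-- The shift of functions. -/
def shF (a : ZMod l) : (ZMod l → M) →+ (ZMod l → M) where
  toFun φ := fun j => φ (j + a)
  map_zero' := rfl
  map_add' _ _ := rfl

/-- The shift. -/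
noncomputable def shE (a : ZMod l) : VM l M →+ VM l M :=
  QuotientAddGroup.map _ _ (shF a) (by
    rintro φ ⟨w, h⟩
    exact ⟨w, fun j => h _⟩)

theorem shE_mk (a : ZMod l) (φ : ZMod l → M) : shE a (mk φ) = mk (fun j => φ (j + a)) := rfl

variable (l M) in
/-- The shifts as a homomorphism. -/
noncomputable def shHom : Multiplicative (ZMod l) →* AddMonoid.End (VM l M) where
  toFun a := shE a.toAdd
  map_one' := by
    refine AddMonoidHom.ext fun Q => ?_
    obtain ⟨φ, rfl⟩ := mk_surj Q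
    rw [shE_mk]
    simp only [toAdd_one, add_zero]
    rfl
  map_mul' a b := by
    refine AddMonoidHom.ext fun Q => ?_
    obtain ⟨φ, rfl⟩ := mk_surj Q
    change _ = shE a.toAdd (shE b.toAdd (mk φ))
    rw [shE_mk, shE_mk, shE_mk]
    congr 1
    funext j
    rw [toAdd_mul, add_assoc]

noncomputable instance : Module (AA l) (VM l M) :=
  Module.compHom (VM l M)
    ((AddMonoidAlgebra.lift ℤ (AddMonoid.End (VM l M)) (ZMod l) (shHom l M)).toRingHom)

/-- The element of the group ring. -/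
noncomputable def zeta (l : ℕ) : AA l := AddMonoidAlgebra.of ℤ (ZMod l) (Multiplicative.ofAdd 1)

theorem of_smul (a : ZMod l) (Q : VM l M) :
    (AddMonoidAlgebra.of ℤ (ZMod l) (Multiplicative.ofAdd a) : AA l) • Q = shE a Q := by
  change (AddMonoidAlgebra.lift ℤ (AddMonoid.End (VM l M)) (ZMod l) (shHom l M))
    (AddMonoidAlgebra.of ℤ (ZMod l) (Multiplicative.ofAdd a)) Q = _
  rw [AddMonoidAlgebra.lift_of]
  rfl

theorem zeta_pow (n : ℕ) :
    zeta l ^ n = AddMonoidAlgebra.of ℤ (ZMod l) (Multiplicative.ofAdd (n : ZMod l)) := by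
  rw [zeta, ← map_pow, ← ofAdd_nsmul, nsmul_one]

theorem zeta_pow_l : zeta l ^ l = 1 := by
  rw [zeta_pow, ZMod.natCast_self, ofAdd_zero, map_one]

theorem zeta_pow_smul (n : ℕ) (φ : ZMod l → M) :
    zeta l ^ n • mk φ = mk (fun j : ZMod l => φ (j + (n : ZMod l))) := by
  rw [zeta_pow, of_smul, shE_mk]

theorem zeta_smul (φ : ZMod l → M) : zeta l • mk φ = mk (fun j => φ (j + 1)) := by
  rw [← pow_one (zeta l), zeta_pow_smul, Nat.cast_one]

theorem lam_smul (φ : ZMod l → M) : (1 - zeta l) • mk φ = mk (fun j => φ j - φ (j + 1)) := by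
  rw [sub_smul, one_smul, zeta_smul, ← map_sub]
  rfl

variable {G : Type*} [Group G] [DistribMulAction G M]

/-- The action on the values. -/
noncomputable def actE (s : G) : VM l M →+ VM l M :=
  QuotientAddGroup.map _ _ (DistribSMul.toAddMonoidHom (ZMod l → M) s) (by
    rintro φ ⟨w, h⟩
    exact ⟨s • w, fun j => by simp [h j]⟩)

theorem actE_mk (s : G) (φ : ZMod l → M) : actE s (mk φ) = mk (fun j => s • φ j) := rfl

noncomputable instance : DistribMulAction G (VM l M) where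
  smul s Q := actE s Q
  one_smul Q := by
    change actE (1 : G) Q = Q
    obtain ⟨φ, rfl⟩ := mk_surj Q
    rw [actE_mk]
    simp only [one_smul]
  mul_smul s t Q := by
    change actE (s * t) Q = actE s (actE t Q)
    obtain ⟨φ, rfl⟩ := mk_surj Q
    rw [actE_mk, actE_mk, actE_mk]
    simp only [mul_smul]
  smul_zero s := map_zero (actE s)
  smul_add s Q R := map_add (actE s) Q R

theorem smul_mk (s : G) (φ : ZMod l → M) : s • mk φ = mk (fun j => s • φ j) := rfl

/-- `G` acts by linear maps. -/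
theorem g_comm (s : G) (a : AA l) (Q : VM l M) : s • (a • Q) = a • (s • Q) := by
  induction a using AddMonoidAlgebra.induction_on generalizing Q with
  | of m =>
    obtain ⟨φ, rfl⟩ := mk_surj Q
    rw [of_smul, of_smul, shE_mk, smul_mk, smul_mk, shE_mk]
  | add x y hx hy => rw [add_smul, add_smul, smul_add, hx, hy]
  | smul r x hx =>
    rw [smul_assoc, smul_assoc, ← hx, smul_comm]

/-! ### the norm -/

/-- The sum of the values over `ZMod l`, along `0, 1, ..., l - 1`. -/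
theorem sum_shift [NeZero l] (φ : ZMod l → M) (j : ZMod l) :
    ∑ i ∈ range l, φ (j + (i : ZMod l)) = ∑ i : ZMod l, φ i := by
  rw [← Equiv.sum_comp (Equiv.addLeft j) φ]
  refine sum_bij' (fun i _ => (i : ZMod l)) (fun i _ => i.val) (fun _ _ => mem_univ _)
    (fun i _ => mem_range.2 (ZMod.val_lt i)) (fun i hi => ?_) (fun i _ => ZMod.natCast_zmod_val i)
    fun i _ => rfl
  rw [ZMod.val_natCast, Nat.mod_eq_of_lt (mem_range.1 hi)]

/-- `1 + ze + ... + ze ^ (l - 1) = 0` on `V`. -/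
theorem norm_smul [NeZero l] (Q : VM l M) : (∑ i ∈ range l, zeta l ^ i) • Q = 0 := by
  obtain ⟨φ, rfl⟩ := mk_surj Q
  rw [sum_smul]
  have h1 : ∀ i ∈ range l, zeta l ^ i • mk φ = mk (fun j : ZMod l => φ (j + (i : ZMod l))) :=
    fun i _ => zeta_pow_smul i φ
  rw [sum_congr rfl h1, ← map_sum, mk_eq_zero]
  refine ⟨∑ i : ZMod l, φ i, fun j => ?_⟩
  rw [Finset.sum_apply]
  exact sum_shift φ j

/-! ### divisibility and torsion -/

theorem nsmul_mk (n : ℕ) (φ : ZMod l → M) : n • mk φ = mk (fun j => n • φ j) := by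
  rw [← map_nsmul]
  rfl

theorem div_V (hd : ∀ P : M, ∃ P', l • P' = P) (Q : VM l M) : ∃ R : VM l M, l • R = Q := by
  obtain ⟨φ, rfl⟩ := mk_surj Q
  choose f hf using fun j => hd (φ j)
  exact ⟨mk f, by rw [nsmul_mk]; exact congrArg mk (funext hf)⟩

theorem pow_mono {n m : ℕ} (h : n ≤ m) {P : M} (hP : l ^ n • P = 0) : l ^ m • P = 0 := by
  obtain ⟨r, rfl⟩ := Nat.exists_eq_add_of_le h
  rw [pow_add, mul_comm, mul_smul, hP, smul_zero]

theorem tors_V' [NeZero l] (ht : ∀ P : M, ∃ n : ℕ, l ^ n • P = 0) (φ : ZMod l → M) :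
    ∃ n : ℕ, ∀ j, l ^ n • φ j = 0 := by
  choose n hn using fun j => ht (φ j)
  exact ⟨univ.sup n, fun j => pow_mono (le_sup (f := n) (mem_univ j)) (hn j)⟩

theorem tors_V [hl : Fact l.Prime] (ht : ∀ P : M, ∃ n : ℕ, l ^ n • P = 0) (Q : VM l M) :
    ∃ j : ℕ, (1 - zeta l) ^ j • Q = 0 := by
  have : NeZero l := ⟨hl.out.ne_zero⟩
  obtain ⟨φ, rfl⟩ := mk_surj Q
  obtain ⟨n, hn⟩ := tors_V' ht φ
  refine ⟨n * (l - 1), lam_of_l (A := AA l) (ze := zeta l) (n := n) norm_smul ?_⟩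
  rw [nsmul_mk]
  exact mk_eq_zero.2 ⟨0, hn⟩

theorem half_V [hl : Fact l.Prime] (hd : ∀ P : M, ∃ P', l • P' = P)
    (ht : ∀ P : M, ∃ n : ℕ, l ^ n • P = 0) (Q : VM l M) : ∃ R : VM l M, (1 - zeta l) • R = Q := by
  have : NeZero l := ⟨hl.out.ne_zero⟩
  exact lam_div (A := AA l) (ze := zeta l) norm_smul (tors_V ht) (div_V hd) Q

theorem pow_div (hd : ∀ P : M, ∃ P', l • P' = P) (n : ℕ) (P : M) : ∃ P', l ^ n • P' = P := by
  induction n generalizing P with
  | zero => exact ⟨P, by rw [pow_zero, one_smul]⟩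
  | succ n ih =>
    obtain ⟨P', rfl⟩ := hd P
    obtain ⟨P'', rfl⟩ := ih P'
    exact ⟨P'', by rw [pow_succ, mul_comm, mul_smul]⟩

/-- The elements of `V[l ^ n]` have representatives with values in `M[l ^ n]`. -/
theorem lift_tors (hd : ∀ P : M, ∃ P', l • P' = P) {n : ℕ} {Q : VM l M} (h : l ^ n • Q = 0) :
    ∃ φ, mk φ = Q ∧ ∀ j, l ^ n • φ j = 0 := by
  obtain ⟨φ, rfl⟩ := mk_surj Q
  rw [nsmul_mk, mk_eq_zero] at h
  obtain ⟨w, hw⟩ := h
  obtain ⟨w', rfl⟩ := pow_div hd n w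
  refine ⟨fun j => φ j - w', mk_eq.2 ⟨-w', fun j => sub_eq_add_neg _ _⟩, fun j => ?_⟩
  rw [smul_sub, hw, sub_self]

/-- `V[lam ^ j]` is in `V[l ^ j]`. -/
theorem l_of_lam' [hl : Fact l.Prime] {j : ℕ} {Q : VM l M} (h : (1 - zeta l) ^ j • Q = 0) :
    l ^ j • Q = 0 := by
  have : NeZero l := ⟨hl.out.ne_zero⟩
  apply l_of_lam (A := AA l) (ze := zeta l) norm_smul
  have h1 : j ≤ j * (l - 1) := Nat.le_mul_of_pos_right j (by have := hl.out.two_le; omega)
  obtain ⟨r, hr⟩ := Nat.exists_eq_add_of_le h1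
  rw [hr, pow_add, mul_comm, mul_smul, h, smul_zero]

/-- The elements of `V[lam ^ j]` are fixed if `M[l ^ j]` is. -/
theorem act_V [hl : Fact l.Prime] (hd : ∀ P : M, ∃ P', l • P' = P) {j : ℕ} {s : G}
    (hs : ∀ P : M, l ^ j • P = 0 → s • P = P) {Q : VM l M} (h : (1 - zeta l) ^ j • Q = 0) :
    s • Q = Q := by
  obtain ⟨φ, rfl, hφ⟩ := lift_tors hd (l_of_lam' h)
  rw [smul_mk]
  congr 1
  funext j
  exact hs _ (hφ j)

/-- An element of `G` which acts trivially on `M` acts trivially on `V`. -/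
theorem triv_V {s : G} (hs : ∀ P : M, s • P = P) (Q : VM l M) : s • Q = Q := by
  obtain ⟨φ, rfl⟩ := mk_surj Q
  rw [smul_mk]
  simp only [hs]

/-- The invariants of a subset of `G` in `V` are finite if those in `M` are. -/
theorem fin_V [NeZero l] {U : Set G} (hU : {P : M | ∀ s ∈ U, s • P = P}.Finite) :
    {Q : VM l M | ∀ s ∈ U, s • Q = Q}.Finite := by
  have h1 : {φ : ZMod l → M | ∀ j, φ j ∈ {P : M | ∀ s ∈ U, s • P = P}}.Finite :=
    Set.Finite.pi' fun _ => hU
  refine (h1.image mk).subset fun Q hQ => ?_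
  obtain ⟨φ, rfl, h0⟩ := mk_lift Q
  refine ⟨φ, fun j s hs => ?_, rfl⟩
  have h2 := hQ s hs
  rw [smul_mk, mk_eq] at h2
  obtain ⟨w, hw⟩ := h2
  have h3 := hw 0
  rw [h0, smul_zero, zero_add] at h3
  rw [hw, ← h3, add_zero]

/-! ### the embedding of `M[l]` -/

section iota

variable {V1 : Type*} [AddCommGroup V1] [Module (ZMod l) V1] (i1 : V1 →+ M)

/-- `w ↦ (j ↦ j w)`. -/
noncomputable def iotaV : V1 →+ VM l M where
  toFun w := mk (fun j : ZMod l => i1 (j • w))
  map_zero' := by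
    rw [mk_eq_zero]
    exact ⟨0, fun j => by rw [smul_zero, map_zero]⟩
  map_add' w w' := by
    rw [← map_add]
    congr 1
    funext j
    rw [Pi.add_apply, smul_add, map_add]

theorem iotaV_apply (w : V1) : iotaV i1 w = mk (fun j : ZMod l => i1 (j • w)) := rfl

theorem lam_iota (w : V1) : (1 - zeta l) • iotaV (l := l) i1 w = 0 := by
  rw [iotaV_apply, lam_smul, mk_eq_zero]
  refine ⟨-i1 w, fun j => ?_⟩
  rw [add_smul, one_smul, map_add]
  abel

theorem iotaV_inj (hi : Function.Injective i1) :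
    Function.Injective (iotaV (l := l) (M := M) (V1 := V1) i1) := by
  rw [injective_iff_map_eq_zero]
  intro w hw
  rw [iotaV_apply, mk_eq_zero] at hw
  obtain ⟨c, hc⟩ := hw
  have h1 := hc 1
  have h0 := hc 0
  rw [zero_smul, map_zero] at h0
  rw [one_smul, ← h0] at h1
  exact (map_eq_zero_iff i1 hi).1 h1

theorem iotaV_range [NeZero l] (hr : ∀ P : M, l • P = 0 → ∃ w, i1 w = P) {Q : VM l M}
    (h : (1 - zeta l) • Q = 0) : ∃ w, iotaV i1 w = Q := by
  obtain ⟨φ, rfl⟩ := mk_surj Q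
  rw [lam_smul, mk_eq_zero] at h
  obtain ⟨c, hc⟩ := h
  have h1 : ∀ n : ℕ, φ (n : ZMod l) = φ 0 - n • c := by
    intro n
    induction n with
    | zero => rw [Nat.cast_zero, zero_smul, sub_zero]
    | succ n ih =>
      have h2 := hc (n : ZMod l)
      rw [Nat.cast_add, Nat.cast_one, add_smul, one_smul, ← sub_sub, ← ih, ← h2]
      abel
  have h2 : l • c = 0 := by
    have h3 := h1 l
    rw [ZMod.natCast_self] at h3
    exact (sub_eq_self.1 h3.symm)
  obtain ⟨w, hw⟩ := hr (-c) (by rw [smul_neg, h2, neg_zero])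
  refine ⟨w, ?_⟩
  rw [iotaV_apply, mk_eq]
  refine ⟨-φ 0, fun j => ?_⟩
  have h3 : j = ((j.val : ℕ) : ZMod l) := (ZMod.natCast_zmod_val j).symm
  have h4 : i1 (j • w) = j.val • i1 w := by
    conv_lhs => rw [h3, Nat.cast_smul_eq_nsmul, map_nsmul]
  rw [h4, hw, h3, h1, ← h3, smul_neg]
  abel

theorem iotaV_ac {ac : G →* (V1 ≃ₗ[ZMod l] V1)} (ha : ∀ s w, s • i1 w = i1 (ac s w)) (s : G)
    (w : V1) : s • iotaV (l := l) i1 w = iotaV i1 (ac s w) := by
  rw [iotaV_apply, smul_mk, iotaV_apply]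
  congr 1
  funext j
  rw [ha, map_smul]

end iota

end

end Pool.Agent.SmL.V
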