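import Pool.Agent.Lib.SmL.Sys
import Pool.Agent.Lib.SmL.V.Mod
import Pool.Agent.Lib.SmL.L.Shap

/-!
# SMITH-L (odd prime `l`), the module `V` for cyclic base change: the fields of `Sys.Ok`

`MOk S i1`: the properties of the `G`-module `M` (the `l`-power torsion of `E(Ω)`) from which the
fields of `Sys.Ok` about `V = VM l M` follow.
-/

set_option autoImplicit false

open Finset

namespace Pool.Agent.SmL.V

variable {l : ℕ} {G M V1 Pl : Type*} [Group G] [AddCommGroup M] [DistribMulAction G M]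
  [AddCommGroup V1] [Module (ZMod l) V1]

/-- The properties of the module `M` and the compatibility of the structure `S` with it. -/
structure MOk (S : Sys l (AA l) G (VM l M) V1 Pl) (i1 : V1 →+ M) : Prop where
  ze : S.ze = zeta l
  iota : S.iota = iotaV i1
  inj : Function.Injective i1
  range : ∀ P : M, l • P = 0 → ∃ w, i1 w = P
  l_smul : ∀ w, l • i1 w = 0
  ac : ∀ s w, s • i1 w = i1 (S.ac s w)
  div : ∀ P : M, ∃ P', l • P' = P
  tors : ∀ P : M, ∃ n : ℕ, l ^ n • P = 0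
  act_fin : ∀ n : ℕ, ∃ N ∈ S.NN, ∀ s ∈ N, ∀ P : M, l ^ n • P = 0 → s • P = P
  good_triv : ∀ v ∈ S.good, ∀ P : M, S.sg v • P = P
  fin_inv : ∀ chi : G → ZMod l, S.HomG chi → ∀ v,
    {P : M | ∀ s ∈ S.D v, chi s = 0 → s • P = P}.Finite

section

variable {S : Sys l (AA l) G (VM l M) V1 Pl} {i1 : V1 →+ M}

theorem zz_mk [NeZero l] (hz : S.ze = zeta l) (a : ZMod l) (φ : ZMod l → M) :
    S.zz a • mk φ = mk (fun j => φ (j + a)) := by
  unfold Sys.zz
  rw [hz, zeta_pow_smul, ZMod.natCast_zmod_val]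

/-- The twisted action. -/
theorem tw_mk [NeZero l] (hz : S.ze = zeta l) (chi : G → ZMod l) (s : G) (φ : ZMod l → M) :
    S.tw chi s (mk φ) = mk (L.twM chi s φ) := by
  unfold Sys.tw
  rw [smul_mk, zz_mk hz]
  rfl

theorem dl_mk [NeZero l] (hz : S.ze = zeta l) (chi : G → ZMod l) (s : G) (φ : ZMod l → M) :
    S.dl chi (mk φ) s = mk (L.twM chi s φ - φ) := by
  unfold Sys.dl
  rw [tw_mk hz, map_sub]

theorem zz_zero [NeZero l] (S : Sys l (AA l) G (VM l M) V1 Pl) : S.zz 0 = 1 := by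
  unfold Sys.zz
  rw [ZMod.val_zero, pow_zero]

namespace MOk

variable (h : MOk S i1)

include h

theorem lam_eq : S.lam = 1 - zeta l := by rw [Sys.lam, h.ze]

theorem ze_pow : S.ze ^ l = 1 := by rw [h.ze, zeta_pow_l]

omit h in
theorem smul_comm' (s : G) (a : AA l) (Q : VM l M) : s • (a • Q) = a • (s • Q) := g_comm s a Q

theorem iota_inj : Function.Injective S.iota := by
  rw [h.iota]
  exact iotaV_inj i1 h.inj

theorem lam_iota' (w : V1) : S.lam • S.iota w = 0 := by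
  rw [h.lam_eq, h.iota]
  exact lam_iota i1 w

theorem iota_range [NeZero l] (Q : VM l M) (hQ : S.lam • Q = 0) : ∃ w, S.iota w = Q := by
  rw [h.lam_eq] at hQ
  rw [h.iota]
  exact iotaV_range i1 h.range hQ

theorem iota_ac (s : G) (w : V1) : s • S.iota w = S.iota (S.ac s w) := by
  rw [h.iota]
  exact iotaV_ac i1 h.ac s w

theorem half [Fact l.Prime] (Q : VM l M) : ∃ R, S.lam • R = Q := by
  rw [h.lam_eq]
  exact half_V h.div h.tors Q

theorem torsV [Fact l.Prime] (Q : VM l M) : ∃ j : ℕ, S.lam ^ j • Q = 0 := by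
  rw [h.lam_eq]
  exact tors_V h.tors Q

theorem act_finV [Fact l.Prime] (j : ℕ) :
    ∃ N ∈ S.NN, ∀ s ∈ N, ∀ Q : VM l M, S.lam ^ j • Q = 0 → s • Q = Q := by
  obtain ⟨N, hN, h1⟩ := h.act_fin j
  refine ⟨N, hN, fun s hs Q hQ => ?_⟩
  rw [h.lam_eq] at hQ
  exact act_V h.div (h1 s hs) hQ

theorem good_trivV (v : Pl) (hv : v ∈ S.good) (Q : VM l M) : S.sg v • Q = Q :=
  triv_V (h.good_triv v hv) Q

theorem fin_invV [NeZero l] (chi : G → ZMod l) (hchi : S.HomG chi) (v : Pl) :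
    {Q : VM l M | ∀ s ∈ S.D v, S.dl chi Q s = 0}.Finite := by
  refine (fin_V (U := {s : G | s ∈ S.D v ∧ chi s = 0})
    ((h.fin_inv chi hchi v).subset fun P hP s hs h0 => hP s ⟨hs, h0⟩)).subset ?_
  rintro Q hQ s ⟨hs, h0⟩
  have h1 := hQ s hs
  unfold Sys.dl Sys.tw at h1
  rwa [h0, zz_zero, one_smul, sub_eq_zero] at h1

end MOk

end

end Pool.Agent.SmL.V
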