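import Pool.Agent.Lib.SmL.V.Isot
import Pool.Agent.Lib.SmL.Ar.Defs

/-!
# SMITH-L (odd prime `l`), block V: the `l`-power torsion of a `G`-module

`A` is a `G`-module (`A = E(Ω)`), `lPow l A` its `l`-power torsion, `L1 l A = A[l]` as a vector space
over `F_l`. `Form l G en`: a compatible family of pairings on the `A[l ^ n]` with values in a
`G`-module `U` (`U = Ωˣ`), `th : ZMod l →+ U` an isomorphism onto `U[l]`; `e1` the pairing on `L1 l A`
with values in `F_l`.

`sysV B P good i1`: the structure `Sys` for `V = VM l M`, from the groups `B` and the dual pair `P` of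
block AR. `mok_of`, `weil_of`: the hypotheses `MOk` and `WeilM`.
-/

set_option autoImplicit false

open Finset

namespace Pool.Agent.SmL.V

/-- The elements of `l`-power order. -/
def lPow (l : ℕ) (A : Type*) [AddCommGroup A] : AddSubgroup A where
  carrier := {x | ∃ i : ℕ, l ^ i • x = 0}
  zero_mem' := ⟨0, smul_zero _⟩
  add_mem' := by
    rintro a b ⟨i, hi⟩ ⟨j, hj⟩
    refine ⟨i + j, ?_⟩
    have h1 : l ^ (i + j) • a = 0 := by rw [add_comm, pow_add, mul_smul, hi, smul_zero]
    have h2 : l ^ (i + j) • b = 0 := by rw [pow_add, mul_smul, hj, smul_zero]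
    rw [smul_add, h1, h2, add_zero]
  neg_mem' := by
    rintro a ⟨i, hi⟩
    exact ⟨i, by rw [smul_neg, hi, neg_zero]⟩

theorem mem_lPow {l : ℕ} {A : Type*} [AddCommGroup A] {x : A} :
    x ∈ lPow l A ↔ ∃ i : ℕ, l ^ i • x = 0 := Iff.rfl

/-- The elements killed by `l`. -/
def torL (l : ℕ) (A : Type*) [AddCommGroup A] : AddSubgroup A where
  carrier := {x | l • x = 0}
  zero_mem' := smul_zero _
  add_mem' {a b} ha hb := by
    change l • (a + b) = 0
    rw [smul_add, ha, hb, add_zero]
  neg_mem' {a} ha := by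
    change l • (-a) = 0
    rw [smul_neg, ha, neg_zero]

/-- The elements killed by `l`, as a vector space over `F_l`. -/
def L1 (l : ℕ) (A : Type*) [AddCommGroup A] : Type _ := torL l A

noncomputable instance (l : ℕ) (A : Type*) [AddCommGroup A] : AddCommGroup (L1 l A) :=
  inferInstanceAs (AddCommGroup (torL l A))

section

variable {l : ℕ} {A : Type*} [AddCommGroup A]

theorem L1_l (x : L1 l A) : l • x = 0 := Subtype.ext x.2

noncomputable instance : Module (ZMod l) (L1 l A) := AddCommGroup.zmodModule L1_l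

/-- The inclusion. -/
noncomputable def inc1 (l : ℕ) (A : Type*) [AddCommGroup A] : L1 l A →+ A := (torL l A).subtype

theorem inc1_inj : Function.Injective (inc1 l A) := Subtype.val_injective

theorem inc1_l (x : L1 l A) : l • inc1 l A x = 0 := x.2

/-- The inclusion into the `l`-power torsion. -/
noncomputable def incP (l : ℕ) (A : Type*) [AddCommGroup A] : L1 l A →+ lPow l A where
  toFun x := ⟨inc1 l A x, 1, by rw [pow_one]; exact x.2⟩
  map_zero' := Subtype.ext (map_zero _)
  map_add' x y := Subtype.ext (map_add _ x y)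

theorem incP_val (x : L1 l A) : (incP l A x : A) = inc1 l A x := rfl

variable {G : Type*} [Group G] [DistribMulAction G A]

instance : DistribMulAction G (lPow l A) where
  smul s x := ⟨s • (x : A), by
    obtain ⟨i, hi⟩ := x.2
    exact ⟨i, by rw [smul_comm, hi, smul_zero]⟩⟩
  one_smul x := Subtype.ext (one_smul G (x : A))
  mul_smul s t x := Subtype.ext (mul_smul s t (x : A))
  smul_zero s := Subtype.ext (smul_zero s)
  smul_add s x y := Subtype.ext (smul_add s (x : A) y)

theorem val_smul (s : G) (x : lPow l A) : ((s • x : lPow l A) : A) = s • (x : A) := rfl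

/-- The action of one element on `L1 l A`. -/
noncomputable def actL (l : ℕ) {G : Type*} (A : Type*) [AddCommGroup A] [Group G]
    [DistribMulAction G A] (s : G) : L1 l A →+ L1 l A where
  toFun x := (⟨s • (x.1 : A), by
    change l • (s • (x.1 : A)) = 0
    rw [smul_comm, x.2, smul_zero]⟩ : torL l A)
  map_zero' := Subtype.ext (smul_zero s)
  map_add' x y := Subtype.ext (smul_add s (x.1 : A) y.1)

/-- The action on `L1 l A`. -/
noncomputable def ac1 (l : ℕ) (G A : Type*) [AddCommGroup A] [Group G] [DistribMulAction G A] :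
    G →* (L1 l A ≃ₗ[ZMod l] L1 l A) where
  toFun s := LinearEquiv.ofLinearMap ((actL l A s).toZModLinearMap l)
    ((actL l A s⁻¹).toZModLinearMap l)
    (LinearMap.ext fun x => Subtype.ext (smul_inv_smul s (x.1 : A)))
    (LinearMap.ext fun x => Subtype.ext (inv_smul_smul s (x.1 : A)))
  map_one' := LinearEquiv.ext fun x => Subtype.ext (one_smul G (x.1 : A))
  map_mul' s t := LinearEquiv.ext fun x => Subtype.ext (mul_smul s t (x.1 : A))

theorem inc1_ac (s : G) (x : L1 l A) : inc1 l A (ac1 l G A s x) = s • inc1 l A x := rfl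

/-! ### the pairing -/

variable {U : Type*} [AddCommGroup U] [DistribMulAction G U]

/-- A compatible family of equivariant alternating pairings on the groups `A[l ^ n]`, nondegenerate
on `A[l]`. -/
structure Form (l : ℕ) (G : Type*) {A U : Type*} [AddCommGroup A] [AddCommGroup U] [Group G]
    [DistribMulAction G A] [DistribMulAction G U] (en : ℕ → A → A → U) : Prop where
  add_left : ∀ (n : ℕ) (x x' y : A), l ^ n • x = 0 → l ^ n • x' = 0 → l ^ n • y = 0 →
    en n (x + x') y = en n x y + en n x' y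
  add_right : ∀ (n : ℕ) (x y y' : A), l ^ n • x = 0 → l ^ n • y = 0 → l ^ n • y' = 0 →
    en n x (y + y') = en n x y + en n x y'
  comp : ∀ (n : ℕ) (x y : A), l ^ n • x = 0 → l ^ (n + 1) • y = 0 →
    en (n + 1) x y = en n x (l • y)
  equiv : ∀ (n : ℕ) (s : G) (x y : A), l ^ n • x = 0 → l ^ n • y = 0 →
    en n (s • x) (s • y) = s • en n x y
  alt : ∀ x : A, l • x = 0 → en 1 x x = 0
  nondeg : ∀ x : A, l • x = 0 → (∀ y : A, l • y = 0 → en 1 x y = 0) → x = 0

/-- `th` is an isomorphism of `F_l` onto `U[l]`, with trivial action. -/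
structure ThOk (l : ℕ) (G : Type*) {U : Type*} [AddCommGroup U] [Group G] [DistribMulAction G U]
    (th : ZMod l →+ U) : Prop where
  inj : Function.Injective th
  range : ∀ u : U, l • u = 0 → ∃ a, th a = u
  fix : ∀ (s : G) a, s • th a = th a

/-- The inverse of `th`. -/
noncomputable def lg (th : ZMod l →+ U) (u : U) : ZMod l := Function.invFun th u

theorem th_lg {th : ZMod l →+ U} (ht : ThOk l G th) {u : U} (hu : l • u = 0) : th (lg th u) = u :=
  Function.invFun_eq (ht.range u hu)

theorem lg_th {th : ZMod l →+ U} (ht : ThOk l G th) (a : ZMod l) : lg th (th a) = a :=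
  Function.leftInverse_invFun ht.inj a

section e1

variable {en : ℕ → A → A → U} {th : ZMod l →+ U} (hf : Form l G en) (ht : ThOk l G th)

include hf in
theorem Form.one_tors {x y : A} (hx : l • x = 0) (hy : l • y = 0) : l • en 1 x y = 0 := by
  have h1 : ∀ n : ℕ, en 1 (n • x) y = n • en 1 x y := by
    intro n
    induction n with
    | zero =>
      have h2 := hf.add_left 1 0 0 y (smul_zero _) (smul_zero _) (by rw [pow_one]; exact hy)
      rw [add_zero] at h2
      rw [zero_smul, zero_smul]
      exact left_eq_add.1 h2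
    | succ n ih =>
      rw [succ_nsmul, hf.add_left 1 (n • x) x y (by rw [pow_one, smul_comm, hx, smul_zero])
        (by rw [pow_one]; exact hx) (by rw [pow_one]; exact hy), ih, succ_nsmul]
  have h2 := h1 l
  rw [hx] at h2
  rw [← h2]
  have h3 := h1 0
  rwa [zero_smul, zero_smul] at h3

/-- The pairing on `L1 l A`. -/
noncomputable def e1 (hf : Form l G en) (ht : ThOk l G th) :
    L1 l A →ₗ[ZMod l] L1 l A →ₗ[ZMod l] ZMod l :=
  have hadd : ∀ {u v : U}, l • u = 0 → l • v = 0 → lg th (u + v) = lg th u + lg th v := by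
    intro u v hu hv
    apply ht.inj
    rw [th_lg ht (by rw [smul_add, hu, hv, add_zero]), map_add, th_lg ht hu, th_lg ht hv]
  have hp : ∀ x : L1 l A, l ^ 1 • inc1 l A x = 0 := fun x => by rw [pow_one]; exact x.2
  have ha : ∀ x y y' : L1 l A, lg th (en 1 (inc1 l A x) (inc1 l A (y + y'))) =
      lg th (en 1 (inc1 l A x) (inc1 l A y)) + lg th (en 1 (inc1 l A x) (inc1 l A y')) := by
    intro x y y'
    rw [map_add, hf.add_right 1 _ _ _ (hp x) (hp y) (hp y'),
      hadd (hf.one_tors (inc1_l x) (inc1_l y)) (hf.one_tors (inc1_l x) (inc1_l y'))]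
  have hb : ∀ x x' y : L1 l A, lg th (en 1 (inc1 l A (x + x')) (inc1 l A y)) =
      lg th (en 1 (inc1 l A x) (inc1 l A y)) + lg th (en 1 (inc1 l A x') (inc1 l A y)) := by
    intro x x' y
    rw [map_add, hf.add_left 1 _ _ _ (hp x) (hp x') (hp y),
      hadd (hf.one_tors (inc1_l x) (inc1_l y)) (hf.one_tors (inc1_l x') (inc1_l y))]
  LinearMap.mk₂ (ZMod l) (fun x y => lg th (en 1 (inc1 l A x) (inc1 l A y))) hb
    (fun c x y => ZMod.map_smul (AddMonoidHom.mk' (fun x => lg th (en 1 (inc1 l A x) (inc1 l A y)))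
      (fun x x' => hb x x' y)) c x) ha
    (fun c x y => ZMod.map_smul (AddMonoidHom.mk' (fun y => lg th (en 1 (inc1 l A x) (inc1 l A y)))
      (fun y y' => ha x y y')) c y)

theorem e1_apply (x y : L1 l A) : e1 hf ht x y = lg th (en 1 (inc1 l A x) (inc1 l A y)) := rfl

theorem th_e1 (x y : L1 l A) : th (e1 hf ht x y) = en 1 (inc1 l A x) (inc1 l A y) := by
  rw [e1_apply, th_lg ht (hf.one_tors (inc1_l x) (inc1_l y))]

theorem e1_self (x : L1 l A) : e1 hf ht x x = 0 := by
  apply ht.inj
  rw [th_e1, hf.alt _ (inc1_l x), map_zero]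

theorem e1_symm (x y : L1 l A) : e1 hf ht x y = (-1) * e1 hf ht y x := by
  have h := e1_self hf ht (x + y)
  simp only [map_add, LinearMap.add_apply, e1_self, zero_add, add_zero] at h
  rw [neg_one_mul]
  exact eq_neg_of_add_eq_zero_right h

theorem e1_inv (s : G) (x y : L1 l A) :
    e1 hf ht (ac1 l G A s x) (ac1 l G A s y) = e1 hf ht x y := by
  apply ht.inj
  rw [th_e1, inc1_ac, inc1_ac, hf.equiv 1 s _ _ (by rw [pow_one]; exact x.2)
    (by rw [pow_one]; exact y.2), ← th_e1 hf ht, ht.fix]

theorem e1_nondeg (x : L1 l A) (h : ∀ y, e1 hf ht x y = 0) : x = 0 := by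
  apply inc1_inj
  rw [map_zero]
  refine hf.nondeg _ x.2 fun y hy => ?_
  have h1 := th_e1 hf ht x ⟨y, hy⟩
  rw [h, map_zero] at h1
  exact h1.symm

end e1

/-! ### the hypotheses `MOk` and `WeilM` -/

variable {Pl V1 : Type*}

open Classical in
/-- The pairing on the `l`-power torsion. -/
noncomputable def enP (l : ℕ) (en : ℕ → A → A → U) (n : ℕ) (x y : lPow l A) : lPow l U :=
  if h : en n (x : A) (y : A) ∈ lPow l U then ⟨_, h⟩ else 0

theorem Form.tors {en : ℕ → A → A → U} (hf : Form l G en) {n : ℕ} {x y : A}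
    (hx : l ^ n • x = 0) (hy : l ^ n • y = 0) : l ^ n • en n x y = 0 := by
  have h1 : ∀ m : ℕ, en n (m • x) y = m • en n x y := by
    intro m
    induction m with
    | zero =>
      have h2 := hf.add_left n 0 0 y (smul_zero _) (smul_zero _) hy
      rw [add_zero] at h2
      rw [zero_smul, zero_smul]
      exact left_eq_add.1 h2
    | succ m ih =>
      rw [succ_nsmul, hf.add_left n (m • x) x y (by rw [smul_comm, hx, smul_zero]) hx hy, ih,
        succ_nsmul]
  have h2 := h1 (l ^ n)
  rw [hx] at h2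
  rw [← h2]
  have h3 := h1 0
  rwa [zero_smul, zero_smul] at h3

theorem enP_val {en : ℕ → A → A → U} (hf : Form l G en) {n : ℕ} {x y : lPow l A}
    (hx : l ^ n • x = 0) (hy : l ^ n • y = 0) : (enP l en n x y : U) = en n (x : A) (y : A) := by
  have hx' : l ^ n • (x : A) = 0 := congrArg Subtype.val hx
  have hy' : l ^ n • (y : A) = 0 := congrArg Subtype.val hy
  unfold enP
  rw [dif_pos ⟨n, hf.tors hx' hy'⟩]

/-- The inclusion of `F_l` in the `l`-power torsion of `U`. -/
noncomputable def thP (th : ZMod l →+ U) : ZMod l →+ lPow l U where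
  toFun a := ⟨th a, 1, by
    rw [pow_one, ← map_nsmul, ← Nat.cast_smul_eq_nsmul (ZMod l), ZMod.natCast_self, zero_smul,
      map_zero]⟩
  map_zero' := Subtype.ext (map_zero th)
  map_add' a b := Subtype.ext (map_add th a b)

theorem thP_inj {th : ZMod l →+ U} (ht : ThOk l G th) : Function.Injective (thP th) :=
  fun _ _ h => ht.inj (congrArg Subtype.val h)

/-- **The Weil pairing.** -/
theorem weil_of {en : ℕ → A → A → U} {th : ZMod l →+ U} (hf : Form l G en) (ht : ThOk l G th)
    (S : Sys l (AA l) G (VM l (lPow l A)) (L1 l A) Pl) (he : S.e = e1 hf ht) :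
    WeilM S (incP l A) (enP l en) (thP th) where
  add_left n x x' y hx hx' hy := by
    apply Subtype.ext
    rw [enP_val hf (by rw [smul_add, hx, hx', add_zero]) hy, AddSubgroup.coe_add,
      AddSubgroup.coe_add, enP_val hf hx hy, enP_val hf hx' hy]
    exact hf.add_left n _ _ _ (congrArg Subtype.val hx) (congrArg Subtype.val hx')
      (congrArg Subtype.val hy)
  add_right n x y y' hx hy hy' := by
    apply Subtype.ext
    rw [enP_val hf hx (by rw [smul_add, hy, hy', add_zero]), AddSubgroup.coe_add,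
      AddSubgroup.coe_add, enP_val hf hx hy, enP_val hf hx hy']
    exact hf.add_right n _ _ _ (congrArg Subtype.val hx) (congrArg Subtype.val hy)
      (congrArg Subtype.val hy')
  comp n x y hx hy := by
    apply Subtype.ext
    have hx1 : l ^ (n + 1) • x = 0 := by rw [pow_succ', mul_smul, hx, smul_zero]
    have hy1 : l ^ n • (l • y) = 0 := by rw [← mul_smul, ← pow_succ]; exact hy
    rw [enP_val hf hx1 hy, enP_val hf hx hy1]
    exact hf.comp n _ _ (congrArg Subtype.val hx) (congrArg Subtype.val hy)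
  equiv n s x y hx hy := by
    apply Subtype.ext
    have hx1 : l ^ n • (s • x) = 0 := by rw [smul_comm, hx, smul_zero]
    have hy1 : l ^ n • (s • y) = 0 := by rw [smul_comm, hy, smul_zero]
    rw [enP_val hf hx1 hy1, val_smul, val_smul, val_smul, enP_val hf hx hy]
    exact hf.equiv n s _ _ (congrArg Subtype.val hx) (congrArg Subtype.val hy)
  one w w' := by
    apply Subtype.ext
    have h1 : ∀ w : L1 l A, l ^ 1 • incP l A w = 0 := fun w => by
      rw [pow_one, ← map_nsmul, L1_l, map_zero]
    rw [enP_val hf (h1 w) (h1 w'), he]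
    exact (th_e1 hf ht w w').symm

/-- **The hypothesis `MOk`.** -/
theorem mok_of (S : Sys l (AA l) G (VM l (lPow l A)) (L1 l A) Pl) (ze : S.ze = zeta l)
    (iota : S.iota = iotaV (incP l A)) (hac : S.ac = ac1 l G A)
    (div : ∀ P : A, ∃ Q, l • Q = P)
    (act_fin : ∀ n : ℕ, ∃ N ∈ S.NN, ∀ s ∈ N, ∀ P : A, l ^ n • P = 0 → s • P = P)
    (good_triv : ∀ v ∈ S.good, ∀ P : A, (∃ n : ℕ, l ^ n • P = 0) → S.sg v • P = P)
    (fin_inv : ∀ chi : G → ZMod l, S.HomG chi → ∀ v,
      {P : A | (∃ n : ℕ, l ^ n • P = 0) ∧ ∀ s ∈ S.D v, chi s = 0 → s • P = P}.Finite) :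
    MOk S (incP l A) where
  ze := ze
  iota := iota
  inj := fun _ _ h => inc1_inj (congrArg (fun z : lPow l A => (z : A)) h)
  range P hP := ⟨⟨(P : A), congrArg Subtype.val hP⟩, Subtype.ext rfl⟩
  l_smul w := by rw [← map_nsmul, L1_l, map_zero]
  ac s w := by
    rw [hac]
    rfl
  div P := by
    obtain ⟨Q, hQ⟩ := div (P : A)
    obtain ⟨i, hi⟩ := P.2
    exact ⟨⟨Q, i + 1, by rw [pow_succ, mul_smul, hQ, hi]⟩, Subtype.ext hQ⟩
  tors P := by
    obtain ⟨i, hi⟩ := P.2
    exact ⟨i, Subtype.ext hi⟩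
  act_fin n := by
    obtain ⟨N, hN, h⟩ := act_fin n
    exact ⟨N, hN, fun s hs P hP => Subtype.ext (h s hs _ (congrArg Subtype.val hP))⟩
  good_triv v hv P := Subtype.ext (good_triv v hv _ P.2)
  fin_inv chi hchi v := by
    refine Set.Finite.preimage' (f := fun P : lPow l A => (P : A)) (fin_inv chi hchi v)
      (fun _ _ => (Set.subsingleton_singleton.preimage Subtype.val_injective).finite) |>.subset ?_
    intro P hP
    exact ⟨P.2, fun s hs h0 => congrArg Subtype.val (hP s hs h0)⟩

end

end Pool.Agent.SmL.V
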