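import Mathlib

/-!
# SMITH-L (odd prime `l`), the module `V`: `l` and the power `lam ^ (l - 1)`

`lam = 1 - ze`. `exists_g`: `(1 - X) ^ (l - 1) = 1 + X + ... + X ^ (l - 1) + l g`, `g(1) = -1`. So on a
module which is killed by `1 + ze + ... + ze ^ (l - 1)` one has `lam ^ (l - 1) = l g(ze)`, and
`g(ze)` is invertible on the elements killed by a power of `lam`.
-/

set_option autoImplicit false

open Polynomial Finset

namespace Pool.Agent.SmL.V

/-- `(1 - X) ^ (l - 1) = 1 + X + ... + X ^ (l - 1) + l g`. -/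
theorem exists_g (l : ℕ) [hl : Fact l.Prime] :
    ∃ g : ℤ[X], (1 - X) ^ (l - 1) = ∑ i ∈ range l, X ^ i + C (l : ℤ) * g := by
  have h1 : C (l : ℤ) ∣ ((1 - X) ^ (l - 1) - ∑ i ∈ range l, X ^ i : ℤ[X]) := by
    rw [C_dvd_iff_dvd_coeff]
    intro i
    rw [← ZMod.intCast_zmod_eq_zero_iff_dvd]
    have h2 : ((1 - X) ^ (l - 1) - ∑ i ∈ range l, X ^ i : (ZMod l)[X]) = 0 := by
      have h3 : (1 - X : (ZMod l)[X]) ≠ 0 := by
        intro h
        have h4 := congrArg (fun p => Polynomial.eval 0 p) h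
        simp at h4
      apply mul_left_cancel₀ h3
      rw [mul_zero, mul_sub, ← pow_succ', mul_neg_geom_sum, Nat.sub_add_cancel hl.out.one_le,
        sub_pow_char, one_pow, sub_self]
    have h5 : ((1 - X) ^ (l - 1) - ∑ i ∈ range l, X ^ i : ℤ[X]).map (Int.castRingHom (ZMod l)) =
        0 := by
      rw [← h2, Polynomial.map_sub, Polynomial.map_pow, Polynomial.map_sub, Polynomial.map_one,
        map_X, Polynomial.map_sum]
      simp only [Polynomial.map_pow, map_X]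
    have h6 := congrArg (fun p => Polynomial.coeff p i) h5
    simpa only [coeff_map, coeff_zero, eq_intCast] using h6
  obtain ⟨g, hg⟩ := h1
  exact ⟨g, by rw [← hg]; ring⟩

theorem eval_g {l : ℕ} [hl : Fact l.Prime] {g : ℤ[X]}
    (hg : (1 - X) ^ (l - 1) = ∑ i ∈ range l, X ^ i + C (l : ℤ) * g) : g.eval 1 = -1 := by
  have h1 := congrArg (fun p => Polynomial.eval 1 p) hg
  have hl1 : l - 1 ≠ 0 := by have := hl.out.two_le; omega
  simp only [eval_pow, eval_sub, eval_one, eval_X, sub_self, eval_add, eval_mul, eval_C,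
    eval_finsetSum, one_pow, sum_const, card_range, nsmul_eq_mul, mul_one, zero_pow hl1] at h1
  have hl0 : (l : ℤ) ≠ 0 := by exact_mod_cast hl.out.ne_zero
  apply mul_left_cancel₀ hl0
  linarith

/-- `g = -1 + (1 - X) h`. -/
theorem exists_h {l : ℕ} [Fact l.Prime] {g : ℤ[X]}
    (hg : (1 - X) ^ (l - 1) = ∑ i ∈ range l, X ^ i + C (l : ℤ) * g) :
    ∃ h : ℤ[X], g = -1 + (1 - X) * h := by
  have h1 : (X - C 1 : ℤ[X]) ∣ g + 1 := by
    rw [dvd_iff_isRoot, IsRoot, eval_add, eval_g hg, eval_one, neg_add_cancel]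
  obtain ⟨h, hh⟩ := h1
  refine ⟨-h, ?_⟩
  have : g = (X - C 1) * h - 1 := by rw [← hh]; ring
  rw [this, C_1]
  ring

section mod

variable {A V : Type*} [CommRing A] [AddCommGroup V] [Module A V] {l : ℕ} [hl : Fact l.Prime]
  {ze : A}

omit hl in
/-- `lam ^ (l - 1) = l g(ze)` on `V`. -/
theorem lam_pow_eq (hN : ∀ Q : V, (∑ i ∈ range l, ze ^ i) • Q = 0) {g : ℤ[X]}
    (hg : (1 - X) ^ (l - 1) = ∑ i ∈ range l, X ^ i + C (l : ℤ) * g) (Q : V) :
    (1 - ze) ^ (l - 1) • Q = l • (aeval ze g • Q) := by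
  have h1 : (1 - ze) ^ (l - 1) = ∑ i ∈ range l, ze ^ i + (l : A) * aeval ze g := by
    have h2 := congrArg (fun p => aeval ze p) hg
    simpa using h2
  rw [h1, add_smul, hN, zero_add, mul_smul, Nat.cast_smul_eq_nsmul]

omit hl in
theorem lam_pow_eq_pow (hN : ∀ Q : V, (∑ i ∈ range l, ze ^ i) • Q = 0) {g : ℤ[X]}
    (hg : (1 - X) ^ (l - 1) = ∑ i ∈ range l, X ^ i + C (l : ℤ) * g) (n : ℕ) (Q : V) :
    (1 - ze) ^ (n * (l - 1)) • Q = l ^ n • (aeval ze g ^ n • Q) := by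
  induction n generalizing Q with
  | zero => simp
  | succ n ih =>
    rw [add_mul, one_mul, pow_add, mul_smul, lam_pow_eq hN hg, smul_comm, ih, ← mul_smul, pow_succ,
      pow_succ, ← mul_smul]
    congr 1
    ring

/-- `l ^ n Q = 0` implies `lam ^ (n (l - 1)) Q = 0`. -/
theorem lam_of_l (hN : ∀ Q : V, (∑ i ∈ range l, ze ^ i) • Q = 0) {n : ℕ} {Q : V}
    (h : l ^ n • Q = 0) : (1 - ze) ^ (n * (l - 1)) • Q = 0 := by
  obtain ⟨g, hg⟩ := exists_g l
  rw [lam_pow_eq_pow hN hg, smul_comm, h, smul_zero]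

/-- `g(ze)` is injective on the `lam`-power torsion. -/
theorem g_inj {g : ℤ[X]} (hg : (1 - X) ^ (l - 1) = ∑ i ∈ range l, X ^ i + C (l : ℤ) * g) {Q : V}
    (ht : ∃ j : ℕ, (1 - ze) ^ j • Q = 0) (h : aeval ze g • Q = 0) : Q = 0 := by
  obtain ⟨b, hb⟩ := exists_h hg
  obtain ⟨j, hj⟩ := ht
  have h1 : Q = aeval ze b • ((1 - ze) • Q) := by
    have h2 : aeval ze g = -1 + (1 - ze) * aeval ze b := by
      rw [hb]; simp
    rw [h2, add_smul, neg_smul, one_smul, neg_add_eq_zero] at h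
    rw [← mul_smul, mul_comm]
    exact h
  have h3 : ∀ n : ℕ, Q = aeval ze b ^ n • ((1 - ze) ^ n • Q) := by
    intro n
    induction n with
    | zero => simp
    | succ n ih =>
      have h4 : aeval ze b ^ (n + 1) • ((1 - ze) ^ (n + 1) • Q) =
          aeval ze b ^ n • ((1 - ze) ^ n • (aeval ze b • ((1 - ze) • Q))) := by
        simp only [← mul_smul]
        congr 1
        ring
      rw [h4, ← h1]
      exact ih
  rw [h3 j, hj, smul_zero]

/-- `lam ^ (n (l - 1)) Q = 0` implies `l ^ n Q = 0`. -/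
theorem l_of_lam (hN : ∀ Q : V, (∑ i ∈ range l, ze ^ i) • Q = 0)
    {n : ℕ} {Q : V} (h : (1 - ze) ^ (n * (l - 1)) • Q = 0) : l ^ n • Q = 0 := by
  obtain ⟨g, hg⟩ := exists_g l
  have h1 : aeval ze g ^ n • (l ^ n • Q) = 0 := by
    rw [lam_pow_eq_pow hN hg] at h
    rw [smul_comm]
    exact h
  have h2 : ∀ (m : ℕ) (R : V), (1 - ze) ^ (n * (l - 1)) • R = 0 → aeval ze g ^ m • R = 0 →
      R = 0 := by
    intro m
    induction m with
    | zero => intro R _ h; simpa using h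
    | succ m ih =>
      intro R hR h
      rw [pow_succ, mul_smul] at h
      have h3 := ih (aeval ze g • R) (by rw [smul_comm, hR, smul_zero]) h
      exact g_inj hg ⟨_, hR⟩ h3
  exact h2 n _ (by rw [smul_comm, h, smul_zero]) h1

/-- `g(ze)` is onto on the `lam`-power torsion. -/
theorem g_surj {g : ℤ[X]} (hg : (1 - X) ^ (l - 1) = ∑ i ∈ range l, X ^ i + C (l : ℤ) * g) {Q : V}
    (ht : ∃ j : ℕ, (1 - ze) ^ j • Q = 0) : ∃ R : V, aeval ze g • R = Q := by
  obtain ⟨b, hb⟩ := exists_h hg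
  obtain ⟨j, hj⟩ := ht
  have h2 : aeval ze g = -(1 - (1 - ze) * aeval ze b) := by
    rw [hb]
    simp only [map_add, map_neg, map_one, map_mul, map_sub, aeval_X]
    ring
  refine ⟨-((∑ i ∈ range j, ((1 - ze) * aeval ze b) ^ i) • Q), ?_⟩
  rw [smul_neg, ← mul_smul, h2, neg_mul, neg_smul, neg_neg, mul_neg_geom_sum, sub_smul, one_smul,
    mul_pow, mul_comm, mul_smul, hj, smul_zero, sub_zero]

/-- `l`-divisible and `lam`-power torsion imply `lam`-divisible. -/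
theorem lam_div (hN : ∀ Q : V, (∑ i ∈ range l, ze ^ i) • Q = 0)
    (ht : ∀ Q : V, ∃ j : ℕ, (1 - ze) ^ j • Q = 0) (hd : ∀ Q : V, ∃ R : V, l • R = Q) (Q : V) :
    ∃ R : V, (1 - ze) • R = Q := by
  obtain ⟨g, hg⟩ := exists_g l
  obtain ⟨R, rfl⟩ := hd Q
  obtain ⟨R', rfl⟩ := g_surj hg (ht R)
  refine ⟨(1 - ze) ^ (l - 2) • R', ?_⟩
  have h1 : l - 2 + 1 = l - 1 := by have := hl.out.two_le; omega
  rw [← mul_smul, ← pow_succ', h1, lam_pow_eq hN hg]

end mod

end Pool.Agent.SmL.V
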