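import Pool.Agent.Lib.SmL.V.Weil

/-!
# SMITH-L (odd prime `l`), the module `V` for cyclic base change: isotropy of the Kummer groups

`isot_of_weil`: the field `isot` of `Sys.Ok` for `V = VM l M` from the Weil pairing on `M`: the cup
product of two coboundaries is a coboundary in `mu`.
-/

set_option autoImplicit false

open Finset

namespace Pool.Agent.SmL.V

section invM

variable {G mu : Type*} [Group G] [AddCommGroup mu] [DistribMulAction G mu]

/-- The local invariant of a 2-cochain: the obstruction to lift the relation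
`ph sg ph⁻¹ = sg ^ q`. -/
def invM (sg ph : G) (q : ℕ) (c : G → G → mu) : mu :=
  c ph sg - c (sg ^ q) ph - ∑ i ∈ Ico 1 q, c (sg ^ i) sg

omit [DistribMulAction G mu] in
theorem invM_congr {D : Subgroup G} {sg ph : G} (hs : sg ∈ D) (hp : ph ∈ D) (q : ℕ)
    {c d : G → G → mu} (h : ∀ s ∈ D, ∀ t ∈ D, c s t = d s t) :
    invM sg ph q c = invM sg ph q d := by
  unfold invM
  rw [h _ hp _ hs, h _ (D.pow_mem hs q) _ hp,
    sum_congr rfl fun i _ => h _ (D.pow_mem hs i) _ hs]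

/-- The invariant of a coboundary is zero. -/
theorem invM_cob {sg ph : G} {q : ℕ} (hq : 0 < q) (hs : ∀ m : mu, sg • m = m)
    (hp : ∀ m : mu, ph • m = q • m) (b : G → mu) (h : b (ph * sg) = b (sg ^ q * ph)) :
    invM sg ph q (fun s t => b s + s • b t - b (s * t)) = 0 := by
  have hpow : ∀ (i : ℕ) (m : mu), sg ^ i • m = m := by
    intro i m
    induction i with
    | zero => rw [pow_zero, one_smul]
    | succ i ih => rw [pow_succ, mul_smul, hs, ih]
  have key : ∀ m : ℕ, ∑ i ∈ Ico 1 (m + 1), (b (sg ^ i) + sg ^ i • b sg - b (sg ^ i * sg)) =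
      m • b sg + b sg - b (sg ^ (m + 1)) := by
    intro m
    induction m with
    | zero => simp
    | succ m ih =>
      rw [sum_Ico_succ_top (by omega), ih, ← pow_succ, hpow, succ_nsmul]
      abel
  obtain ⟨m, rfl⟩ := Nat.exists_eq_succ_of_ne_zero hq.ne'
  unfold invM
  rw [key]
  beta_reduce
  rw [hp, hpow, h, succ_nsmul]
  abel

omit [DistribMulAction G mu] in
theorem invM_map {nu : Type*} [AddCommGroup nu] (j : nu →+ mu) (sg ph : G) (q : ℕ)
    (c : G → G → nu) : invM sg ph q (fun s t => j (c s t)) = j (invM sg ph q c) := by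
  unfold invM
  rw [← map_sum, ← map_sub, ← map_sub]

end invM

variable {l : ℕ} {G M V1 Pl mu : Type*} [Group G] [AddCommGroup M] [DistribMulAction G M]
  [AddCommGroup V1] [Module (ZMod l) V1] [AddCommGroup mu] [DistribMulAction G mu]

/-- The local structure: `sg v` acts trivially on `mu` and `phi v` by `q v`, and the local invariant
is given by `invM`. -/
structure LocMu (S : Sys l (AA l) G (VM l M) V1 Pl) (mu : Type*) [AddCommGroup mu]
    [DistribMulAction G mu] (q : Pl → ℕ) : Prop where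
  pos : ∀ v, 0 < q v
  inf_mem : ∀ N ∈ S.NN, ∀ N' ∈ S.NN, N ⊓ N' ∈ S.NN
  normal : ∀ N ∈ S.NN, N.Normal
  phi_mem : ∀ v, S.phi v ∈ S.D v
  sg_mem : ∀ v, S.sg v ∈ S.D v
  rel : ∀ v, ∀ N ∈ S.NN, (S.sg v ^ q v)⁻¹ * (S.phi v * S.sg v * (S.phi v)⁻¹) ∈ N
  inv_eq : ∀ v c, S.inv v c = invM (S.sg v) (S.phi v) (q v) c
  inv_sy : ∀ v (x y : G → V1), S.CocV v x → S.CocV v y →
    S.inv v (fun s t => S.e (x s) (S.ac s (y t))) = S.sy v (S.loc v x) (S.loc v y)
  sg : ∀ (v : Pl) (m : mu), S.sg v • m = m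
  phi : ∀ (v : Pl) (m : mu), S.phi v • m = q v • m

section

variable {S : Sys l (AA l) G (VM l M) V1 Pl} {i1 : V1 →+ M} {en : ℕ → M → M → mu}
  {j : ZMod l →+ mu} {q : Pl → ℕ}

theorem LocMu.tf_rel (h : LocMu S mu q) (v : Pl) {α : Type*} {f : G → α}
    (hf : S.TFOn (S.D v) f) : f (S.phi v * S.sg v) = f (S.sg v ^ q v * S.phi v) := by
  obtain ⟨N, hN, hf⟩ := hf
  have h1 : (S.sg v ^ q v * S.phi v)⁻¹ * (S.phi v * S.sg v) ∈ N := by
    have h1 := (h.normal N hN).conj_mem _ (h.rel v N hN) (S.phi v)⁻¹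
    have h2 : (S.sg v ^ q v * S.phi v)⁻¹ * (S.phi v * S.sg v) =
        (S.phi v)⁻¹ * ((S.sg v ^ q v)⁻¹ * (S.phi v * S.sg v * (S.phi v)⁻¹)) * (S.phi v)⁻¹⁻¹ := by
      group
    rw [h2]
    exact h1
  have hD : S.sg v ^ q v * S.phi v ∈ S.D v :=
    (S.D v).mul_mem ((S.D v).pow_mem (h.sg_mem v) _) (h.phi_mem v)
  have hD' : S.phi v * S.sg v ∈ S.D v := (S.D v).mul_mem (h.phi_mem v) (h.sg_mem v)
  have h2 := hf _ hD _ h1 ((S.D v).mul_mem ((S.D v).inv_mem hD) hD')
  rw [mul_inv_cancel_left] at h2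
  exact h2

theorem tw_mul [NeZero l] (hz : S.ze = zeta l) {chi : G → ZMod l}
    (hchi : ∀ s t, chi (s * t) = chi s + chi t) (s t : G) (Q : VM l M) :
    S.tw chi (s * t) Q = S.tw chi s (S.tw chi t Q) := by
  obtain ⟨φ, rfl⟩ := mk_surj Q
  rw [tw_mk hz, tw_mk hz, tw_mk hz, L.twM_mul hchi]

theorem tw_add' (chi : G → ZMod l) (s : G) (Q R : VM l M) :
    S.tw chi s (Q + R) = S.tw chi s Q + S.tw chi s R := by
  unfold Sys.tw
  rw [smul_add, smul_add]

theorem tw_sub' (chi : G → ZMod l) (s : G) (Q R : VM l M) :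
    S.tw chi s (Q - R) = S.tw chi s Q - S.tw chi s R := by
  unfold Sys.tw
  rw [smul_sub, smul_sub]

theorem tw_smul' (chi : G → ZMod l) (s : G) (a : AA l) (Q : VM l M) :
    S.tw chi s (a • Q) = a • S.tw chi s Q := by
  unfold Sys.tw
  rw [g_comm, ← mul_smul, ← mul_smul, mul_comm]

theorem tw_nsmul' (chi : G → ZMod l) (s : G) (a : ℕ) (Q : VM l M) :
    S.tw chi s (a • Q) = a • S.tw chi s Q := by
  rw [← Nat.cast_smul_eq_nsmul (AA l), tw_smul', Nat.cast_smul_eq_nsmul]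

theorem dl_smul' (chi : G → ZMod l) (s : G) (a : AA l) (Q : VM l M) :
    S.dl chi (a • Q) s = a • S.dl chi Q s := by
  unfold Sys.dl
  rw [tw_smul', smul_sub]

theorem dl_mul' [NeZero l] (hz : S.ze = zeta l) {chi : G → ZMod l}
    (hchi : ∀ s t, chi (s * t) = chi s + chi t) (s t : G) (Q : VM l M) :
    S.dl chi Q (s * t) = S.dl chi Q s + S.tw chi s (S.dl chi Q t) := by
  unfold Sys.dl
  rw [tw_mul hz hchi, tw_sub']
  abel

/-- **Isotropy of the local Kummer groups.** -/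
theorem isot_of_weil [hl : Fact l.Prime] (h : MOk S i1) (hw : WeilM S i1 en j)
    (hL : LocMu S mu q) (hj : Function.Injective j) :
    ∀ chi : G → ZMod l, S.HomG chi → ∀ v, ∀ x ∈ S.Wl chi v, ∀ y ∈ S.Wl chi v,
      S.sy v x y = 0 := by
  classical
  have : NeZero l := ⟨hl.out.ne_zero⟩
  rintro chi hchi v x ⟨Q, hQ, hx1, hx2⟩ y ⟨Q', hQ', hy1, hy2⟩
  -- a level
  obtain ⟨n, hn⟩ : ∃ n : ℕ, l ^ (n + 1) • Q = 0 := by
    obtain ⟨j, hj⟩ := h.torsV Q
    refine ⟨j, ?_⟩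
    rw [h.lam_eq] at hj
    rw [pow_succ, mul_comm, mul_smul, l_of_lam' hj, smul_zero]
  set r := (n + 1) * (l - 1) - 1 with hr
  have hr1 : (n + 1) * (l - 1) = r + 1 := by
    have h4 : 0 < (n + 1) * (l - 1) :=
      Nat.mul_pos (by omega) (by have := hl.out.two_le; omega)
    omega
  obtain ⟨Qr, hQr⟩ : ∃ R, S.lam ^ r • R = Q' := by
    have h5 : ∀ m : ℕ, ∃ R, S.lam ^ m • R = Q' := by
      intro m
      induction m with
      | zero => exact ⟨Q', by rw [pow_zero, one_smul]⟩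
      | succ m ih =>
        obtain ⟨R, hR⟩ := ih
        obtain ⟨R', hR'⟩ := h.half R
        exact ⟨R', by rw [pow_succ, mul_smul, hR', hR]⟩
    exact h5 r
  have htf : ∀ Q0 : VM l M, S.TF (S.dl chi Q0) := by
    intro Q0
    obtain ⟨i, hi⟩ := h.torsV Q0
    obtain ⟨N, hN, h1⟩ := hchi.1
    obtain ⟨N', hN', h2⟩ := h.act_finV i
    refine ⟨N ⊓ N', hL.inf_mem N hN N' hN', fun s n hn => ?_⟩
    unfold Sys.dl Sys.tw
    rw [h1 s n hn.1, mul_smul, h2 n hn.2 Q0 hi]
  have hun : ∀ (Q0 : VM l M), S.lam • Q0 = 0 → S.iota (Function.invFun S.iota Q0) = Q0 := by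
    intro Q0 h0
    exact Function.invFun_eq (h.iota_range Q0 h0)
  have htw : ∀ (s : G) (w : V1), S.tw chi s (S.iota w) = S.iota (S.ac s w) := by
    intro s w
    unfold Sys.tw
    rw [h.iota_ac]
    have h6 : ∀ m : ℕ, ∀ u : V1, S.ze ^ m • S.iota u = S.iota u := by
      intro m u
      induction m with
      | zero => rw [pow_zero, one_smul]
      | succ m ih =>
        have h7 := h.lam_iota' u
        unfold Sys.lam at h7
        rw [sub_smul, one_smul, sub_eq_zero] at h7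
        rw [pow_succ, mul_smul, ← h7, ih]
    exact h6 _ _
  let c : G → V1 := fun s => Function.invFun S.iota (S.dl chi Q s)
  let d : G → V1 := fun s => Function.invFun S.iota (S.dl chi Q' s)
  have hc : ∀ s ∈ S.D v, S.iota (c s) = S.dl chi Q s := fun s hs => hun _ (hQ s hs)
  have hd : ∀ s ∈ S.D v, S.iota (d s) = S.dl chi Q' s := fun s hs => hun _ (hQ' s hs)
  have hxc : S.loc v c = x := Prod.ext
    (h.iota_inj ((hc _ (hL.sg_mem v)).trans hx1)) (h.iota_inj ((hc _ (hL.phi_mem v)).trans hx2))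
  have hyd : S.loc v d = y := Prod.ext
    (h.iota_inj ((hd _ (hL.sg_mem v)).trans hy1)) (h.iota_inj ((hd _ (hL.phi_mem v)).trans hy2))
  have hcoc : ∀ (Q0 : VM l M) (c0 : G → V1), (∀ s ∈ S.D v, S.iota (c0 s) = S.dl chi Q0 s) →
      (∀ s, c0 s = Function.invFun S.iota (S.dl chi Q0 s)) → S.CocV v c0 := by
    intro Q0 c0 h1 h2
    refine ⟨?_, fun s hs t ht => ?_⟩
    · obtain ⟨N, hN, h3⟩ := htf Q0
      exact ⟨N, hN, fun s _ n hn _ => by rw [h2, h2, h3 s n hn]⟩
    · apply h.iota_inj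
      rw [map_add, h1 _ ((S.D v).mul_mem hs ht), h1 s hs, ← htw, h1 t ht, dl_mul' h.ze hchi.2]
  have hcV := hcoc Q c hc fun _ => rfl
  have hdV := hcoc Q' d hd fun _ => rfl
  rw [← hxc, ← hyd, ← hL.inv_sy v c d hcV hdV, hL.inv_eq]
  apply hj
  rw [map_zero, ← invM_map]
  -- torsion
  have ht : ∀ s ∈ S.D v, l ^ (n + 1) • S.dl chi Qr s = 0 := by
    intro s hs
    apply l_of_lam (A := AA l) (ze := zeta l) norm_smul
    rw [← h.lam_eq, hr1, pow_succ', mul_smul, ← dl_smul', hQr]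
    exact hQ' s hs
  have htws : ∀ s, l ^ (n + 1) • S.tw chi s Q = 0 := by
    intro s
    rw [← tw_nsmul', hn]
    unfold Sys.tw
    rw [smul_zero, smul_zero]
  have key : ∀ s ∈ S.D v, ∀ t ∈ S.D v, (-1 : ℤ) ^ (n + 1) • j (S.e (c s) (S.ac s (d t))) =
      bv en (n + 1) Q (S.dl chi Qr s) + s • bv en (n + 1) Q (S.dl chi Qr t) -
        bv en (n + 1) Q (S.dl chi Qr (s * t)) := by
    intro s hs t ht'
    have htt : l ^ (n + 1) • S.tw chi s (S.dl chi Qr t) = 0 := by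
      rw [← tw_nsmul', ht t ht']
      unfold Sys.tw
      rw [smul_zero, smul_zero]
    rw [← bv_iota hw h (n := n) (w := c s) (w' := S.ac s (d t)) htt (by
      rw [← hr, ← tw_smul', ← dl_smul', hQr, ← hd t ht', htw]), hc s hs]
    have h3 : S.dl chi Q s = S.tw chi s Q - Q := rfl
    rw [h3, bv_sub_left hw h.div (htws s) hn htt, bv_tw hw h.div h.ze chi s hn (ht t ht')]
    have h4 : S.tw chi s (S.dl chi Qr t) = S.dl chi Qr (s * t) - S.dl chi Qr s := by
      rw [dl_mul' h.ze hchi.2]; abel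
    rw [h4, bv_sub_right hw h.div hn (ht _ ((S.D v).mul_mem hs ht')) (ht s hs)]
    abel
  have h5 : invM (S.sg v) (S.phi v) (q v)
      (fun s t => (-1 : ℤ) ^ (n + 1) • j (S.e (c s) (S.ac s (d t)))) = 0 := by
    rw [invM_congr (hL.sg_mem v) (hL.phi_mem v) (q v) key]
    exact invM_cob (hL.pos v) (hL.sg v) (hL.phi v) (fun s => bv en (n + 1) Q (S.dl chi Qr s))
      (hL.tf_rel v (f := fun s => bv en (n + 1) Q (S.dl chi Qr s)) (by
        obtain ⟨N, hN, h3⟩ := htf Qr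
        exact ⟨N, hN, fun s _ m hm _ => by beta_reduce; rw [h3 s m hm]⟩))
  have h6 : invM (S.sg v) (S.phi v) (q v)
      (fun s t => (-1 : ℤ) ^ (n + 1) • j (S.e (c s) (S.ac s (d t)))) =
      (-1 : ℤ) ^ (n + 1) • invM (S.sg v) (S.phi v) (q v)
        (fun s t => j (S.e (c s) (S.ac s (d t)))) := by
    unfold invM
    rw [← smul_sum, smul_sub, smul_sub]
  rw [h6] at h5
  rcases neg_one_pow_eq_or ℤ (n + 1) with h7 | h7
  · rwa [h7, one_smul] at h5
  · rwa [h7, neg_one_smul, neg_eq_zero] at h5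

end

end Pool.Agent.SmL.V
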