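import Pool.Agent.Lib.SmL.V.Fld

/-!
# SMITH-L (odd prime `l`), the module `V` for cyclic base change: isotropy of the Kummer groups

`WeilM S i1 en j`: a compatible family of equivariant pairings `en n` on `M[l ^ n]` with values in
`mu` (the `l`-power roots of unity), on `V1` it is `j ∘ S.e`. The pairing on `V[l ^ n]` is
`<mk φ, mk ψ> = ∑ j, en n (φ j) (ψ j - ψ (j + 1))`; it is invariant under the shift, so it is
equivariant for every twisted action. `bv_iota`: its value on `V[lam]`. `isot_of_weil`: the local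
Kummer groups are isotropic.
-/

set_option autoImplicit false

open Finset Polynomial

namespace Pool.Agent.SmL.V

/-! ### the group ring on functions -/

section opF

variable {l : ℕ} {M : Type*} [AddCommGroup M]

variable (l M) in
/-- The shifts of functions as a homomorphism. -/
noncomputable def shHomF : Multiplicative (ZMod l) →* AddMonoid.End (ZMod l → M) where
  toFun a := shF a.toAdd
  map_one' := by
    refine AddMonoidHom.ext fun φ => ?_
    funext j
    change φ (j + 0) = φ j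
    rw [add_zero]
  map_mul' a b := by
    refine AddMonoidHom.ext fun φ => ?_
    funext j
    change φ (j + (a * b).toAdd) = φ (j + a.toAdd + b.toAdd)
    rw [toAdd_mul, add_assoc]

variable (l M) in
/-- The action of the group ring on functions. -/
noncomputable def opF : AA l →ₐ[ℤ] AddMonoid.End (ZMod l → M) :=
  AddMonoidAlgebra.lift ℤ (AddMonoid.End (ZMod l → M)) (ZMod l) (shHomF l M)

theorem opF_of (a : ZMod l) (φ : ZMod l → M) :
    opF l M (AddMonoidAlgebra.of ℤ (ZMod l) (Multiplicative.ofAdd a)) φ = fun j => φ (j + a) := by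
  unfold opF
  rw [AddMonoidAlgebra.lift_of]
  rfl

theorem opF_pow (n : ℕ) (φ : ZMod l → M) :
    opF l M (zeta l ^ n) φ = fun j => φ (j + (n : ZMod l)) := by
  rw [zeta_pow, opF_of]

theorem opF_lam (φ : ZMod l → M) : opF l M (1 - zeta l) φ = fun j => φ j - φ (j + 1) := by
  rw [map_sub, map_one]
  change φ - opF l M (zeta l) φ = _
  rw [← pow_one (zeta l), opF_pow, Nat.cast_one]
  rfl

theorem opF_add (a b : AA l) (φ : ZMod l → M) : opF l M (a + b) φ = opF l M a φ + opF l M b φ := by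
  rw [map_add]
  rfl

theorem opF_mul (a b : AA l) (φ : ZMod l → M) : opF l M (a * b) φ = opF l M a (opF l M b φ) := by
  rw [map_mul]
  rfl

theorem opF_zsmul (r : ℤ) (a : AA l) (φ : ZMod l → M) : opF l M (r • a) φ = r • opF l M a φ := by
  rw [map_zsmul]
  rfl

theorem mk_opF (a : AA l) (φ : ZMod l → M) : mk (opF l M a φ) = a • mk φ := by
  induction a using AddMonoidAlgebra.induction_on generalizing φ with
  | of m =>
    have h := of_smul (M := M) m (mk φ)
    rw [shE_mk] at h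
    rw [opF_of]
    exact h.symm
  | add x y hx hy => rw [opF_add, map_add, add_smul, hx, hy]
  | smul r x hx => rw [opF_zsmul, map_zsmul, smul_assoc, hx]

theorem opF_norm [NeZero l] (φ : ZMod l → M) :
    opF l M (∑ i ∈ range l, zeta l ^ i) φ = fun _ => ∑ i : ZMod l, φ i := by
  have h1 : ∀ s : Finset ℕ, opF l M (∑ i ∈ s, zeta l ^ i) φ =
      fun j => ∑ i ∈ s, φ (j + (i : ZMod l)) := by
    intro s
    induction s using Finset.cons_induction with
    | empty => simp only [sum_empty, map_zero]; rfl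
    | cons a s ha ih =>
      rw [sum_cons, opF_add, ih, opF_pow]
      funext j
      rw [Pi.add_apply, sum_cons]
  rw [h1]
  funext j
  exact sum_shift φ j

theorem opF_nat (n : ℕ) (φ : ZMod l → M) : opF l M (n : AA l) φ = n • φ := by
  rw [map_natCast]
  rfl

/-- The identity `lam ^ ((n + 1) (l - 1)) = (-1) ^ n l ^ n N + g ^ (n + 1) l ^ (n + 1)`. -/
theorem ring_id {A : Type*} [CommRing A] {ze : A} [hl : Fact l.Prime] (hz : ze ^ l = 1) {g : ℤ[X]}
    (hg : (1 - X) ^ (l - 1) = ∑ i ∈ range l, X ^ i + C (l : ℤ) * g) (n : ℕ) :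
    (1 - ze) ^ ((n + 1) * (l - 1)) = (-1 : ℤ) ^ n • (((l ^ n : ℕ) : A) * ∑ i ∈ range l, ze ^ i) +
      aeval ze g ^ (n + 1) * ((l ^ (n + 1) : ℕ) : A) := by
  rw [zsmul_eq_mul]
  push_cast
  obtain ⟨b, hb⟩ := exists_h hg
  set N : A := ∑ i ∈ range l, ze ^ i with hN
  have h0 : (1 - ze) * N = 0 := by rw [hN, mul_neg_geom_sum, hz, sub_self]
  have h1 : (1 - ze) ^ (l - 1) = N + (l : A) * aeval ze g := by
    have h2 := congrArg (fun p => aeval ze p) hg
    simpa using h2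
  have h2 : aeval ze g = -1 + (1 - ze) * aeval ze b := by
    rw [hb]; simp
  have h3 : N * aeval ze g = -N := by
    rw [h2]
    linear_combination aeval ze b * h0
  have h4 : N * N = l * N := by
    have h5 : ∀ i : ℕ, ze ^ i * N = N := by
      intro i
      induction i with
      | zero => rw [pow_zero, one_mul]
      | succ i ih =>
        rw [pow_succ, mul_assoc]
        have : ze * N = N := by linear_combination -h0
        rw [this, ih]
    conv_lhs => rw [hN, sum_mul]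
    rw [sum_congr rfl fun i _ => h5 i, sum_const, card_range, nsmul_eq_mul]
  induction n with
  | zero =>
    rw [zero_add, one_mul, h1]
    ring
  | succ n ih =>
    have h5 : (n + 1 + 1) * (l - 1) = (n + 1) * (l - 1) + (l - 1) := by ring
    rw [h5, pow_add, ih, h1]
    have h6 : ∀ m : ℕ, N * aeval ze g ^ m = (-1) ^ m * N := by
      intro m
      induction m with
      | zero => ring
      | succ m ih =>
        rw [pow_succ, ← mul_assoc, ih, mul_assoc, h3]
        ring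
    have h7 := h6 (n + 1)
    linear_combination (l : A) ^ n * (-1) ^ n * (h4 + l * h3) + (l : A) ^ (n + 1) * h7

/-- `lam ^ ((n + 1) (l - 1))` on `M[l ^ (n + 1)]`. -/
theorem opF_lam_pow [hl : Fact l.Prime] {n : ℕ} {φ : ZMod l → M}
    (hφ : ∀ j, l ^ (n + 1) • φ j = 0) :
    opF l M ((1 - zeta l) ^ ((n + 1) * (l - 1))) φ =
      fun _ => (-1 : ℤ) ^ n • (l ^ n • ∑ i : ZMod l, φ i) := by
  have : NeZero l := ⟨hl.out.ne_zero⟩
  obtain ⟨g, hg⟩ := exists_g l
  have h2 : opF l M ((l ^ (n + 1) : ℕ) : AA l) φ = 0 := by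
    rw [opF_nat]
    exact funext hφ
  rw [ring_id zeta_pow_l hg, opF_add, opF_zsmul, opF_mul, opF_mul, h2, map_zero, add_zero, opF_nat,
    opF_norm]
  rfl

end opF

/-! ### summation by parts -/

theorem sum_parts {M : Type*} [AddCommGroup M] (f : ℕ → M) (m : ℕ) :
    ∑ k ∈ range m, k • (f k - f (k + 1)) = ∑ k ∈ range m, f (k + 1) - m • f m := by
  induction m with
  | zero => simp
  | succ m ih =>
    rw [sum_range_succ, ih, sum_range_succ, smul_sub, add_smul, one_smul]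
    abel

theorem sum_parts_Z {l : ℕ} [NeZero l] {M : Type*} [AddCommGroup M] (ψ : ZMod l → M) :
    ∑ j : ZMod l, j.val • (ψ j - ψ (j + 1)) = ∑ j : ZMod l, ψ j - l • ψ 0 := by
  have h1 : ∀ f : ZMod l → M, ∑ j : ZMod l, f j = ∑ k ∈ range l, f (k : ZMod l) := by
    intro f
    rw [← sum_shift f 0]
    exact sum_congr rfl fun i _ => by rw [zero_add]
  rw [h1]
  have h2 : ∀ k ∈ range l, ((k : ZMod l)).val • (ψ (k : ZMod l) - ψ ((k : ZMod l) + 1)) =
      k • ((fun i : ℕ => ψ (i : ZMod l)) k - (fun i : ℕ => ψ (i : ZMod l)) (k + 1)) := by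
    intro k hk
    rw [ZMod.val_natCast, Nat.mod_eq_of_lt (mem_range.1 hk)]
    push_cast
    rfl
  rw [sum_congr rfl h2, sum_parts]
  congr 1
  · rw [← sum_shift ψ 1]
    refine sum_congr rfl fun i _ => ?_
    rw [Nat.cast_add, Nat.cast_one, add_comm]
  · rw [ZMod.natCast_self]

/-! ### the pairing -/

variable {l : ℕ} {G M V1 Pl mu : Type*} [Group G] [AddCommGroup M] [DistribMulAction G M]
  [AddCommGroup V1] [Module (ZMod l) V1] [AddCommGroup mu] [DistribMulAction G mu]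

/-- A compatible family of equivariant pairings on the `M[l ^ n]`. -/
structure WeilM (S : Sys l (AA l) G (VM l M) V1 Pl) (i1 : V1 →+ M) (en : ℕ → M → M → mu)
    (j : ZMod l →+ mu) : Prop where
  add_left : ∀ (n : ℕ) (x x' y : M), l ^ n • x = 0 → l ^ n • x' = 0 → l ^ n • y = 0 →
    en n (x + x') y = en n x y + en n x' y
  add_right : ∀ (n : ℕ) (x y y' : M), l ^ n • x = 0 → l ^ n • y = 0 → l ^ n • y' = 0 →
    en n x (y + y') = en n x y + en n x y'
  comp : ∀ (n : ℕ) (x y : M), l ^ n • x = 0 → l ^ (n + 1) • y = 0 →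
    en (n + 1) x y = en n x (l • y)
  equiv : ∀ (n : ℕ) (s : G) (x y : M), l ^ n • x = 0 → l ^ n • y = 0 →
    en n (s • x) (s • y) = s • en n x y
  one : ∀ w w' : V1, en 1 (i1 w) (i1 w') = j (S.e w w')

/-- `M[l ^ n]`. -/
def TorM (l : ℕ) (M : Type*) [AddCommGroup M] (n : ℕ) : AddSubgroup M where
  carrier := {x | l ^ n • x = 0}
  add_mem' {a b} ha hb := by
    change l ^ n • (a + b) = 0
    rw [smul_add, ha, hb, add_zero]
  zero_mem' := smul_zero _
  neg_mem' {a} ha := by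
    change l ^ n • (-a) = 0
    rw [smul_neg, ha, neg_zero]

section pairing

variable {S : Sys l (AA l) G (VM l M) V1 Pl} {i1 : V1 →+ M} {en : ℕ → M → M → mu}
  {j : ZMod l →+ mu}

/-- The pairing on functions. -/
noncomputable def bI (l : ℕ) [NeZero l] (en : ℕ → M → M → mu) (n : ℕ) (φ ψ : ZMod l → M) : mu :=
  ∑ i : ZMod l, en n (φ i) (ψ i - ψ (i + 1))

namespace WeilM

variable (hw : WeilM S i1 en j)

/-- The pairing as a bilinear map. -/
noncomputable def B (n : ℕ) : TorM l M n →+ TorM l M n →+ mu :=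
  AddMonoidHom.mk' (fun x => AddMonoidHom.mk' (fun y => en n x y)
    (fun y y' => hw.add_right n x y y' x.2 y.2 y'.2))
    (fun x x' => AddMonoidHom.ext fun y => hw.add_left n x x' y x.2 x'.2 y.2)

theorem B_apply (n : ℕ) (x y : TorM l M n) : hw.B n x y = en n (x : M) (y : M) := rfl

include hw

theorem comp_pow {n : ℕ} {x y : M} (r : ℕ) (hx : l ^ n • x = 0) (hy : l ^ (n + r) • y = 0) :
    en (n + r) x y = en n x (l ^ r • y) := by
  induction r generalizing y with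
  | zero => rw [pow_zero, one_smul, add_zero]
  | succ r ih =>
    rw [← add_assoc, hw.comp (n + r) x y (pow_mono (by omega) hx) (by rwa [add_assoc]), ih, smul_smul,
      pow_succ]
    rw [smul_smul, ← pow_succ]
    rwa [add_assoc]

omit hw in
theorem mem_smul {n : ℕ} {x : M} (s : G) (hx : l ^ n • x = 0) : l ^ n • (s • x) = 0 := by
  rw [smul_comm, hx, smul_zero]

theorem zero_left {n : ℕ} {y : M} (hy : l ^ n • y = 0) : en n 0 y = 0 := by
  have h : hw.B n 0 ⟨y, hy⟩ = 0 := by rw [map_zero, AddMonoidHom.zero_apply]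
  exact h

theorem zero_right {n : ℕ} {x : M} (hx : l ^ n • x = 0) : en n x 0 = 0 := by
  have h : hw.B n ⟨x, hx⟩ 0 = 0 := map_zero _
  exact h

theorem nsmul_left {n : ℕ} {x y : M} (m : ℕ) (hx : l ^ n • x = 0) (hy : l ^ n • y = 0) :
    en n (m • x) y = m • en n x y := by
  have h : hw.B n (m • ⟨x, hx⟩) ⟨y, hy⟩ = m • hw.B n ⟨x, hx⟩ ⟨y, hy⟩ := by
    rw [map_nsmul, AddMonoidHom.nsmul_apply]
  exact h

theorem nsmul_right {n : ℕ} {x y : M} (m : ℕ) (hx : l ^ n • x = 0) (hy : l ^ n • y = 0) :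
    en n x (m • y) = m • en n x y := by
  have h : hw.B n ⟨x, hx⟩ (m • ⟨y, hy⟩) = m • hw.B n ⟨x, hx⟩ ⟨y, hy⟩ := map_nsmul _ _ _
  exact h

theorem zsmul_right {n : ℕ} {x y : M} (m : ℤ) (hx : l ^ n • x = 0) (hy : l ^ n • y = 0) :
    en n x (m • y) = m • en n x y := by
  have h : hw.B n ⟨x, hx⟩ (m • ⟨y, hy⟩) = m • hw.B n ⟨x, hx⟩ ⟨y, hy⟩ := map_zsmul _ _ _
  exact h

theorem sub_right {n : ℕ} {x y y' : M} (hx : l ^ n • x = 0) (hy : l ^ n • y = 0)
    (hy' : l ^ n • y' = 0) : en n x (y - y') = en n x y - en n x y' := by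
  have h : hw.B n ⟨x, hx⟩ (⟨y, hy⟩ - ⟨y', hy'⟩) = hw.B n ⟨x, hx⟩ ⟨y, hy⟩ - hw.B n ⟨x, hx⟩ ⟨y', hy'⟩ :=
    map_sub _ _ _
  exact h

theorem sum_right {n : ℕ} {x : M} {ι : Type*} (s : Finset ι) (f : ι → M) (hx : l ^ n • x = 0)
    (hf : ∀ i, l ^ n • f i = 0) : en n x (∑ i ∈ s, f i) = ∑ i ∈ s, en n x (f i) := by
  have h : hw.B n ⟨x, hx⟩ (∑ i ∈ s, ⟨f i, hf i⟩) = ∑ i ∈ s, hw.B n ⟨x, hx⟩ ⟨f i, hf i⟩ :=
    map_sum _ _ _
  have h1 : ((∑ i ∈ s, (⟨f i, hf i⟩ : TorM l M n) : TorM l M n) : M) = ∑ i ∈ s, f i := by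
    rw [AddSubgroup.val_finsetSum]
  rw [B_apply, h1] at h
  exact h

end WeilM

/-! ### the pairing on functions -/

section func

variable [NeZero l]

omit [NeZero l] in
theorem diff_tors {n : ℕ} {ψ : ZMod l → M} (hψ : ∀ i, l ^ n • ψ i = 0) (i : ZMod l) :
    l ^ n • (ψ i - ψ (i + 1)) = 0 := by
  rw [smul_sub, hψ, hψ, sub_zero]

variable (hw : WeilM S i1 en j)

include hw

theorem bI_add_left {n : ℕ} {φ φ' ψ : ZMod l → M} (hφ : ∀ i, l ^ n • φ i = 0)
    (hφ' : ∀ i, l ^ n • φ' i = 0) (hψ : ∀ i, l ^ n • ψ i = 0) :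
    bI l en n (φ + φ') ψ = bI l en n φ ψ + bI l en n φ' ψ := by
  unfold bI
  rw [← sum_add_distrib]
  exact sum_congr rfl fun i _ => hw.add_left n _ _ _ (hφ i) (hφ' i) (diff_tors hψ i)

theorem bI_add_right {n : ℕ} {φ ψ ψ' : ZMod l → M} (hφ : ∀ i, l ^ n • φ i = 0)
    (hψ : ∀ i, l ^ n • ψ i = 0) (hψ' : ∀ i, l ^ n • ψ' i = 0) :
    bI l en n φ (ψ + ψ') = bI l en n φ ψ + bI l en n φ ψ' := by
  unfold bI
  rw [← sum_add_distrib]
  refine sum_congr rfl fun i _ => ?_
  rw [← hw.add_right n _ _ _ (hφ i) (diff_tors hψ i) (diff_tors hψ' i)]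
  congr 1
  rw [Pi.add_apply, Pi.add_apply]
  abel

theorem bI_const_left {n : ℕ} {w : M} {ψ : ZMod l → M} (h : l ^ n • w = 0)
    (hψ : ∀ i, l ^ n • ψ i = 0) : bI l en n (fun _ => w) ψ = 0 := by
  unfold bI
  rw [← hw.sum_right univ (fun i => ψ i - ψ (i + 1)) h (diff_tors hψ), sum_sub_distrib]
  have h1 : ∑ i : ZMod l, ψ (i + 1) = ∑ i : ZMod l, ψ i := Equiv.sum_comp (Equiv.addRight 1) ψ
  rw [h1, sub_self, hw.zero_right h]

/-- Only the classes modulo constants matter. -/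
theorem bI_congr {n : ℕ} {φ φ' ψ ψ' : ZMod l → M} (hφ : ∀ i, l ^ n • φ i = 0)
    (hφ' : ∀ i, l ^ n • φ' i = 0) (hψ : ∀ i, l ^ n • ψ i = 0)
    (h : mk φ = mk φ') (h' : mk ψ = mk ψ') : bI l en n φ ψ = bI l en n φ' ψ' := by
  obtain ⟨w, h1⟩ := mk_eq.1 h
  obtain ⟨w', h1'⟩ := mk_eq.1 h'
  have hw0 : l ^ n • w = 0 := by
    have h2 : w = φ 0 - φ' 0 := by rw [h1 0]; abel
    rw [h2, smul_sub, hφ, hφ', sub_zero]
  have h4 : φ = φ' + fun _ => w := funext h1
  rw [h4, bI_add_left hw hφ' (fun _ => hw0) hψ, bI_const_left hw hw0 hψ, add_zero]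
  unfold bI
  refine sum_congr rfl fun i _ => ?_
  rw [h1' i, h1' (i + 1), add_sub_add_right_eq_sub]

/-- Equivariance for the twisted action. -/
theorem bI_tw {n : ℕ} (chi : G → ZMod l) (s : G) {φ ψ : ZMod l → M} (hφ : ∀ i, l ^ n • φ i = 0)
    (hψ : ∀ i, l ^ n • ψ i = 0) :
    bI l en n (L.twM chi s φ) (L.twM chi s ψ) = s • bI l en n φ ψ := by
  unfold bI L.twM
  rw [smul_sum, ← Equiv.sum_comp (Equiv.addRight (chi s))
    (fun i => s • en n (φ i) (ψ i - ψ (i + 1)))]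
  refine sum_congr rfl fun i _ => ?_
  rw [Equiv.coe_addRight, ← hw.equiv n s _ _ (hφ _) (diff_tors hψ _), smul_sub,
    add_right_comm i 1 (chi s)]

theorem bI_iota {n : ℕ} (hl1 : ∀ w, l • i1 w = 0) {w : V1} {ψ : ZMod l → M}
    (hψ : ∀ i, l ^ (n + 1) • ψ i = 0) :
    bI l en (n + 1) (fun i : ZMod l => i1 (i • w)) ψ = en 1 (i1 w) (l ^ n • ∑ i : ZMod l, ψ i) := by
  have hwn : ∀ u : V1, l ^ (n + 1) • i1 u = 0 := fun u => by
    rw [pow_succ, mul_smul, hl1, smul_zero]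
  have h1 : ∀ i : ZMod l, i1 (i • w) = i.val • i1 w := by
    intro i
    conv_lhs => rw [← ZMod.natCast_zmod_val i, Nat.cast_smul_eq_nsmul, map_nsmul]
  have hs : l ^ (n + 1) • ∑ i : ZMod l, ψ i = 0 := by
    rw [smul_sum]
    exact sum_eq_zero fun i _ => hψ i
  unfold bI
  have h2 : ∀ i : ZMod l, en (n + 1) (i1 (i • w)) (ψ i - ψ (i + 1)) =
      en (n + 1) (i1 w) (i.val • (ψ i - ψ (i + 1))) := by
    intro i
    rw [h1, hw.nsmul_left _ (hwn w) (diff_tors hψ i), hw.nsmul_right _ (hwn w) (diff_tors hψ i)]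
  rw [sum_congr rfl fun i _ => h2 i, ← hw.sum_right univ _ (hwn w) fun i => by
    rw [smul_comm, diff_tors hψ, smul_zero], sum_parts_Z, hw.sub_right (hwn w) hs (by
    rw [smul_comm, hψ, smul_zero]), hw.nsmul_right l (hwn w) (hψ 0),
    ← hw.nsmul_left l (hwn w) (hψ 0), hl1, hw.zero_left (hψ 0), sub_zero, add_comm n 1]
  exact hw.comp_pow n (by rw [pow_one]; exact hl1 w) (by rw [add_comm]; exact hs)

end func

/-! ### the pairing on `V` -/

section pairV

open Classical in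
/-- A representative with values in `M[l ^ n]`. -/
noncomputable def lf (n : ℕ) (x : VM l M) : ZMod l → M :=
  if h : ∃ φ : ZMod l → M, mk φ = x ∧ ∀ i, l ^ n • φ i = 0 then h.choose else 0

theorem lf_tors (n : ℕ) (x : VM l M) (i : ZMod l) : l ^ n • lf n x i = 0 := by
  unfold lf
  split_ifs with h
  · exact h.choose_spec.2 i
  · exact smul_zero _

theorem mk_lf (hd : ∀ P : M, ∃ P', l • P' = P) {n : ℕ} {x : VM l M} (hx : l ^ n • x = 0) :
    mk (lf n x) = x := by
  have h := lift_tors hd hx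
  unfold lf
  rw [dif_pos h]
  exact h.choose_spec.1

variable [NeZero l]

/-- The pairing on `V[l ^ n]`. -/
noncomputable def bv (en : ℕ → M → M → mu) (n : ℕ) (x y : VM l M) : mu :=
  bI l en n (lf n x) (lf n y)

variable (hw : WeilM S i1 en j) (hd : ∀ P : M, ∃ P', l • P' = P)

include hw hd

theorem bv_mk {n : ℕ} {φ ψ : ZMod l → M} (hφ : ∀ i, l ^ n • φ i = 0)
    (hψ : ∀ i, l ^ n • ψ i = 0) : bv en n (mk φ) (mk ψ) = bI l en n φ ψ := by
  have h1 : l ^ n • mk φ = 0 := by rw [nsmul_mk]; exact mk_eq_zero.2 ⟨0, hφ⟩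
  have h2 : l ^ n • mk ψ = 0 := by rw [nsmul_mk]; exact mk_eq_zero.2 ⟨0, hψ⟩
  exact bI_congr hw (lf_tors n _) hφ (lf_tors n _) (mk_lf hd h1) (mk_lf hd h2)

theorem bv_add_left {n : ℕ} {x x' y : VM l M} (hx : l ^ n • x = 0) (hx' : l ^ n • x' = 0)
    (hy : l ^ n • y = 0) : bv en n (x + x') y = bv en n x y + bv en n x' y := by
  obtain ⟨φ, rfl, hφ⟩ := lift_tors hd hx
  obtain ⟨φ', rfl, hφ'⟩ := lift_tors hd hx'
  obtain ⟨ψ, rfl, hψ⟩ := lift_tors hd hy
  rw [← map_add, bv_mk hw hd (fun i => by rw [Pi.add_apply, smul_add, hφ, hφ', add_zero]) hψ,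
    bv_mk hw hd hφ hψ, bv_mk hw hd hφ' hψ, bI_add_left hw hφ hφ' hψ]

theorem bv_add_right {n : ℕ} {x y y' : VM l M} (hx : l ^ n • x = 0) (hy : l ^ n • y = 0)
    (hy' : l ^ n • y' = 0) : bv en n x (y + y') = bv en n x y + bv en n x y' := by
  obtain ⟨φ, rfl, hφ⟩ := lift_tors hd hx
  obtain ⟨ψ, rfl, hψ⟩ := lift_tors hd hy
  obtain ⟨ψ', rfl, hψ'⟩ := lift_tors hd hy'
  rw [← map_add, bv_mk hw hd hφ (fun i => by rw [Pi.add_apply, smul_add, hψ, hψ', add_zero]),
    bv_mk hw hd hφ hψ, bv_mk hw hd hφ hψ', bI_add_right hw hφ hψ hψ']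

theorem bv_sub_left {n : ℕ} {x x' y : VM l M} (hx : l ^ n • x = 0) (hx' : l ^ n • x' = 0)
    (hy : l ^ n • y = 0) : bv en n (x - x') y = bv en n x y - bv en n x' y := by
  have h := bv_add_left hw hd (x := x - x') (x' := x') (y := y) (by rw [smul_sub, hx, hx', sub_zero])
    hx' hy
  rw [sub_add_cancel] at h
  rw [h, add_sub_cancel_right]

theorem bv_sub_right {n : ℕ} {x y y' : VM l M} (hx : l ^ n • x = 0) (hy : l ^ n • y = 0)
    (hy' : l ^ n • y' = 0) : bv en n x (y - y') = bv en n x y - bv en n x y' := by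
  have h := bv_add_right hw hd (x := x) (y := y - y') (y' := y') hx
    (by rw [smul_sub, hy, hy', sub_zero]) hy'
  rw [sub_add_cancel] at h
  rw [h, add_sub_cancel_right]

theorem bv_tw (hz : S.ze = zeta l) {n : ℕ} (chi : G → ZMod l) (s : G) {x y : VM l M}
    (hx : l ^ n • x = 0) (hy : l ^ n • y = 0) :
    bv en n (S.tw chi s x) (S.tw chi s y) = s • bv en n x y := by
  obtain ⟨φ, rfl, hφ⟩ := lift_tors hd hx
  obtain ⟨ψ, rfl, hψ⟩ := lift_tors hd hy
  rw [tw_mk hz, tw_mk hz, bv_mk hw hd (φ := L.twM chi s φ) (ψ := L.twM chi s ψ)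
    (fun i => WeilM.mem_smul s (hφ _)) (fun i => WeilM.mem_smul s (hψ _)), bv_mk hw hd hφ hψ,
    bI_tw hw chi s hφ hψ]

end pairV

section iota

variable [hl : Fact l.Prime] (hw : WeilM S i1 en j) (h : MOk S i1)

include hw h

/-- The pairing on `V[lam]`. -/
theorem bv_iota {n : ℕ} {w w' : V1} {Y : VM l M} (hY : l ^ (n + 1) • Y = 0)
    (h1 : S.lam ^ ((n + 1) * (l - 1) - 1) • Y = S.iota w') :
    haveI : NeZero l := ⟨hl.out.ne_zero⟩
    bv en (n + 1) (S.iota w) Y = (-1 : ℤ) ^ (n + 1) • j (S.e w w') := by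
  have : NeZero l := ⟨hl.out.ne_zero⟩
  obtain ⟨ψ, rfl, hψ⟩ := lift_tors h.div hY
  have hwn : ∀ u : V1, l ^ (n + 1) • i1 u = 0 := fun u => by
    rw [pow_succ, mul_smul, h.l_smul, smul_zero]
  rw [h.lam_eq, h.iota, iotaV_apply, ← mk_opF, mk_eq] at h1
  obtain ⟨c, hc⟩ := h1
  have h2 : opF l M ((1 - zeta l) ^ ((n + 1) * (l - 1))) ψ = fun _ => -i1 w' := by
    have h3 : (n + 1) * (l - 1) = 1 + ((n + 1) * (l - 1) - 1) := by
      have h4 : 0 < (n + 1) * (l - 1) :=
        Nat.mul_pos (by omega) (by have := hl.out.two_le; omega)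
      omega
    rw [h3, pow_add, pow_one, opF_mul, opF_lam]
    funext i
    rw [hc, hc, add_smul, one_smul, map_add]
    abel
  rw [opF_lam_pow hψ] at h2
  have h3 : (-1 : ℤ) ^ n • (l ^ n • ∑ i : ZMod l, ψ i) = -i1 w' := congrFun h2 0
  have h4 : l ^ n • ∑ i : ZMod l, ψ i = (-1 : ℤ) ^ (n + 1) • i1 w' := by
    rw [pow_succ, mul_smul, neg_one_smul, ← h3, smul_smul, ← mul_pow]
    simp
  rw [h.iota, iotaV_apply, bv_mk hw h.div (fun i => hwn _) hψ, bI_iota hw h.l_smul hψ, h4,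
    hw.zsmul_right _ (by rw [pow_one]; exact h.l_smul w) (by rw [pow_one]; exact h.l_smul w'), hw.one]

end iota

end pairing

end Pool.Agent.SmL.V
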